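import Pool.Agent.KR6.Lam

/-!
# Many very negative sets
-/

namespace Pool.Agent.KR6

open Finset AK Pool.Agent.KR5

section
variable {ι : Type*} [DecidableEq ι]

/-- the case `a ≥ 2 c` -/
theorem case_big {κ N : ℕ} (hκ : 1 ≤ κ) (hN1 : 18 * (κ + 1) ≤ N) (Q : Finset ι) (y : ι → ℝ)
    (hy : ∀ i ∈ Q, y i ≤ 1) (hN : Q.card = N) (hs : -1 ≤ ∑ x ∈ Q, y x) {a b : ℝ}
    (ha : (low κ y Q : ℝ) = a * (N.choose κ : ℝ)) (ha1 : a ≤ 1)
    (hb : (KR5.pos (κ + 1) y Q : ℝ) = b * (N.choose (κ + 1) : ℝ))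
    (h2 : 2 * (((κ : ℝ) + 1) / N) ≤ a) : a ≤ 18 * b := by
  by_contra hcon
  push Not at hcon
  subst hN
  have hk2 : 2 ≤ κ + 1 := by omega
  have hM33 : 33 * (κ + 1) ≤ 2 * Q.card := by omega
  have hMr : 18 * ((κ : ℝ) + 1) ≤ Q.card := by exact_mod_cast hN1
  have hκr : (1 : ℝ) ≤ κ := by exact_mod_cast hκ
  have hM0 : (0 : ℝ) < Q.card := by linarith
  have hC : (0 : ℝ) < (Q.card.choose (κ + 1) : ℝ) := by exact_mod_cast Nat.choose_pos (by omega)
  obtain ⟨c, hc⟩ : ∃ c : ℝ, c = ((κ : ℝ) + 1) / Q.card := ⟨_, rfl⟩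
  have hc0 : 0 < c := by rw [hc]; positivity
  have hc18 : c ≤ 1 / 18 := by
    rw [hc, div_le_div_iff₀ hM0 (by norm_num)]
    linarith
  have hcM : c * Q.card = (κ : ℝ) + 1 := by rw [hc]; field_simp
  rw [← hc] at h2
  have hb0 : 0 ≤ b := by
    by_contra h
    push Not at h
    have h1 : (0 : ℝ) ≤ KR5.pos (κ + 1) y Q := Nat.cast_nonneg _
    rw [hb] at h1
    nlinarith
  obtain ⟨q, hq⟩ : ∃ q, q = 3 / 2 * b := ⟨_, rfl⟩
  have hq1 : q < 1 / 12 := by rw [hq]; linarith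
  obtain ⟨R, r, β, μ, T⟩ := exists_trim (ζ := 1) (τ := 1) (q := q) Q y hk2 hM33 hy hs
    (by linarith) (by rw [hq, hb]; linarith)
  obtain ⟨hkr, _, h56, hRM, _, _, _, hR0⟩ := T.nums hk2 hM33
  obtain ⟨k, hk⟩ : ∃ k : ℝ, k = ((κ + 1 : ℕ) : ℝ) := ⟨_, rfl⟩
  have hk' : k = (κ : ℝ) + 1 := by rw [hk]; push_cast; ring
  rw [← hk] at hkr
  -- the mean
  have hE := esp Q y κ (by omega) (θ := 1) (τ := 1) (γ := a) (by norm_num) le_rfl hs
    (by linarith) ha1 (by rw [← ha]; exact le_rfl)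
  rw [← hc] at hE
  have hx0 : 0 ≤ a * 1 - c * 1 := by linarith
  have hcs := cs Q R y (κ + 1) (by omega) T.off hx0 hE
  have hez0 := ez_nonneg y (κ + 1) R Q
  have h1 : (Q.card.choose (κ + 1) : ℝ) * (a * 1 - c * 1) ^ 2
      ≤ (Q.card.choose (κ + 1) : ℝ) * (b * ez y (κ + 1) R Q) := by
    calc _ ≤ _ := hcs
      _ = _ := by rw [hb]; ring
  have h4 := le_of_mul_le_mul_left h1 hC
  rw [mul_one, mul_one] at h4
  have hez := T.ez hk2 hM33
  obtain ⟨V, hV⟩ : ∃ V, V = vr (fun x => y x - μ) (κ + 1) R := ⟨_, rfl⟩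
  have hV0 := T.vnn hk2 hM33
  rw [← hV] at hez hV0
  rw [← hk] at hez
  -- numbers
  have hc' : k / R.card ≤ 6 / 5 * c := by
    rw [div_le_iff₀ hR0]
    have h5 : c * (5 / 6 * Q.card) ≤ c * R.card := mul_le_mul_of_nonneg_left h56 hc0.le
    linarith
  have hα := T.kr (K := 18) (by norm_num) (by push_cast; linarith)
  have htl := T.t_low hk2 hM33 (α := 5 / 18) (by norm_num) (by
    have e : (1 / 3 - 1 / 18 : ℝ) = 5 / 18 := by norm_num
    rw [e] at hα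
    exact hα)
  rw [← hk] at htl
  have hβ := T.beta
  obtain ⟨t, ht⟩ : ∃ t, t = k * μ := ⟨_, rfl⟩
  rw [← ht] at htl hez
  have hq0 := T.q_nonneg
  rcases le_or_gt 0 μ with hμ | hμ
  · have h5 := T.t5 hk2 hM33 one_pos hμ hq1
    have h6 := T.v_pos hk2 hM33 one_pos hμ
    have h7 := T.t_sq hk2 hM33 hμ
    rw [← hV] at h6 h7
    rw [← hk, ← ht] at h5 h7
    have hμt : μ ≤ t / 2 := by rw [ht]; nlinarith
    have hB : max 1 (β + μ) ≤ 4 / 3 := by
      rcases max_cases 1 (β + μ) with ⟨h8, _⟩ | ⟨h8, _⟩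
      · rw [h8]; norm_num
      · rw [h8] at h5 ⊢
        linarith
    have hB0 : 0 ≤ max 1 (β + μ) := le_trans zero_le_one (le_max_left _ _)
    have hB2 : (max 1 (β + μ)) ^ 2 ≤ 16 / 9 := by
      calc (max 1 (β + μ)) ^ 2 ≤ (4 / 3) ^ 2 := pow_le_pow_left₀ hB0 hB 2
        _ = 16 / 9 := by norm_num
    have h8 : q * (3 * V + (max 1 (β + μ)) ^ 2) ≤ q * (3 * V + 16 / 9) :=
      mul_le_mul_of_nonneg_left (by linarith) hq0
    have h9 : V ≤ 80 / 9 * q := by nlinarith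
    have h10 : t ^ 2 ≤ V / 11 := by nlinarith
    have h11 : b * ez y (κ + 1) R Q ≤ b * (152 / 10 * b) := by
      apply mul_le_mul_of_nonneg_left _ hb0
      linarith
    have h12 : (a / 2) ^ 2 ≤ (a - c) ^ 2 := pow_le_pow_left₀ (by linarith) (by linarith) 2
    have h13 : b ^ 2 ≤ (a / 18) ^ 2 := pow_le_pow_left₀ hb0 (by linarith) 2
    nlinarith
  · have h6 := T.v_neg hk2 hM33 one_pos hμ.le (g := 3 / 2) (by norm_num)
    rw [← hV, ← hk, ← ht] at h6
    have ht0 : t ≤ 0 := by rw [ht]; nlinarith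
    have htl2 : -t ≤ 6 / 5 * c := by linarith
    have hμ2 : -μ ≤ 3 / 5 * c := by
      have : k * (-μ) ≤ 6 / 5 * c := by
        have e : k * (-μ) = -t := by rw [ht]; ring
        rw [e]
        exact htl2
      nlinarith
    have hβ2 : β ≤ 1 := by linarith
    have hB : max (1 - μ) β ≤ 31 / 30 := by
      apply max_le
      · linarith
      · linarith
    have hB0 : 0 ≤ max (1 - μ) β := le_trans (by linarith) (le_max_left _ _)
    have hB2 : (max (1 - μ) β) ^ 2 ≤ 107 / 100 := by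
      calc (max (1 - μ) β) ^ 2 ≤ (31 / 30) ^ 2 := pow_le_pow_left₀ hB0 hB 2
        _ ≤ 107 / 100 := by norm_num
    have hcoef : q + 49 / 200 * (-t) / (3 / 2) ≤ q + 49 / 300 * (6 / 5 * c) := by linarith
    have hcoef0 : 0 ≤ q + 49 / 200 * (-t) / (3 / 2) := by linarith
    have h8 : (q + 49 / 200 * (-t) / (3 / 2)) * (3 * V + (max (1 - μ) β) ^ 2)
        ≤ (q + 49 / 300 * (6 / 5 * c)) * (3 * V + 107 / 100) :=
      mul_le_mul hcoef (by linarith) (by positivity) (by linarith)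
    have ht2 : t ^ 2 ≤ 1 / 15 * (6 / 5 * c) := by
      have : (-t) * (-t) ≤ 1 / 15 * (6 / 5 * c) :=
        mul_le_mul (by linarith) htl2 (by linarith) (by norm_num)
      nlinarith
    have h8' : (q + 49 / 300 * (6 / 5 * c)) * (3 * V) ≤ (1 / 12 + 49 / 300 / 15) * (3 * V) :=
      mul_le_mul_of_nonneg_right (by linarith) (by positivity)
    have h9 : V ≤ 64 / 10 * q + 434 / 100 * c := by nlinarith
    have h11 : b * ez y (κ + 1) R Q ≤ b * (96 / 10 * b + 45 / 10 * c) := by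
      apply mul_le_mul_of_nonneg_left _ hb0
      linarith
    have h12 : (a / 2) ^ 2 ≤ (a - c) ^ 2 := pow_le_pow_left₀ (by linarith) (by linarith) 2
    have h13 : b ^ 2 ≤ (a / 18) ^ 2 := pow_le_pow_left₀ hb0 (by linarith) 2
    have h14 : b * c ≤ (a / 18) * (a / 2) :=
      mul_le_mul (by linarith) (by linarith) hc0.le (by linarith)
    nlinarith

end

end Pool.Agent.KR6
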