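import Pool.Agent.KR6.Struct

/-!
# Consequences of trimming
-/

namespace Pool.Agent.KR6

open Finset AK Pool.Agent.KR5

section
variable {ι : Type*} [DecidableEq ι] {P R : Finset ι} {y : ι → ℝ} {k r : ℕ} {ζ τ β μ q : ℝ}

/-- numbers -/
theorem Trim.nums (T : Trim P R y k r ζ τ β μ q) (hk : 2 ≤ k) (hM : 33 * k ≤ 2 * P.card) :
    (2 : ℝ) ≤ k ∧ 33 * (k : ℝ) ≤ 2 * P.card ∧ 5 / 6 * (P.card : ℝ) ≤ R.card ∧
      (R.card : ℝ) ≤ P.card ∧ 8 * k ≤ R.card ∧ k + 4 ≤ R.card ∧ 0 < R.card ∧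
      (0 : ℝ) < R.card := by
  have h1 := T.r1
  have h2 := T.card
  have h6r : 6 * r ≤ 3 * k * r := Nat.mul_le_mul_right _ (by omega)
  have h3 : 5 * P.card ≤ 6 * R.card := by omega
  have h3r : 5 * (P.card : ℝ) ≤ 6 * R.card := by exact_mod_cast h3
  have h4 : R.card ≤ P.card := by omega
  have h4r : (R.card : ℝ) ≤ P.card := by exact_mod_cast h4
  have hkr : (2 : ℝ) ≤ k := by exact_mod_cast hk
  have hMr : 33 * (k : ℝ) ≤ 2 * P.card := by exact_mod_cast hM
  refine ⟨hkr, hMr, by linarith, h4r, by omega, by omega, by omega, by linarith⟩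

theorem Trim.kr (T : Trim P R y k r ζ τ β μ q) {K : ℝ} (hK : 0 < K)
    (hM : K * k ≤ P.card) : (1 / 3 - 1 / K) * (P.card : ℝ) ≤ k * r := by
  have h1 := T.r2
  have h2 : (P.card : ℝ) ≤ 3 * k * (r + 1) := by exact_mod_cast h1.le
  have h3 : (k : ℝ) ≤ 1 / K * P.card := by
    rw [div_mul_eq_mul_div, one_mul, le_div_iff₀ hK]
    linarith
  linarith

theorem Trim.t_low (T : Trim P R y k r ζ τ β μ q) (hk : 2 ≤ k) (hM : 33 * k ≤ 2 * P.card)
    {α : ℝ} (hα0 : 0 ≤ α) (hα : α * (P.card : ℝ) ≤ k * r) :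
    α * β - k / R.card * τ ≤ k * μ := by
  obtain ⟨hkr, hMr, h56, hRM, _, _, _, hR0⟩ := T.nums hk hM
  have hβ := T.beta
  have h1 := T.sum
  have hk0 : (0 : ℝ) < k := by linarith
  rw [T.mu, mul_div_assoc', le_div_iff₀ hR0, sub_mul, div_mul_eq_mul_div, div_mul_cancel₀ _ hR0.ne']
  have h2 : α * β * R.card ≤ α * β * P.card := mul_le_mul_of_nonneg_left hRM (mul_nonneg hα0 hβ)
  have h3 : α * P.card * β ≤ k * r * β := mul_le_mul_of_nonneg_right hα hβ
  have h4 : (k : ℝ) * (r * β - τ) ≤ k * ∑ x ∈ R, y x := mul_le_mul_of_nonneg_left h1 hk0.le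
  nlinarith

theorem Trim.centred (T : Trim P R y k r ζ τ β μ q) (hR : 0 < R.card) :
    ∑ x ∈ R, (y x - μ) = 0 := by
  rw [T.mu]
  exact centre_sum R y hR

theorem Trim.mean (T : Trim P R y k r ζ τ β μ q) (hk : 2 ≤ k) (hM : 33 * k ≤ 2 * P.card) :
    Mean (fun F => sv (fun x => y x - μ) k R F) (vr (fun x => y x - μ) k R)
      (fr (fun x => y x - μ) k R) := by
  obtain ⟨_, _, _, _, _, h4, h0, _⟩ := T.nums hk hM
  exact sv_mean _ k R h4 (T.centred h0)

theorem Trim.vnn (T : Trim P R y k r ζ τ β μ q) (hk : 2 ≤ k) (hM : 33 * k ≤ 2 * P.card) :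
    0 ≤ vr (fun x => y x - μ) k R := by
  obtain ⟨_, _, _, _, _, h4, _, _⟩ := T.nums hk hM
  exact vr_nonneg _ k R h4

theorem Trim.fb_pos (T : Trim P R y k r ζ τ β μ q) (hk : 2 ≤ k) (hM : 33 * k ≤ 2 * P.card)
    (hμ : 0 ≤ μ) : fr (fun x => y x - μ) k R ≤ 3 * vr (fun x => y x - μ) k R ^ 2
      + (max ζ (β + μ)) ^ 2 * vr (fun x => y x - μ) k R := by
  obtain ⟨_, _, _, _, h8, _, _, _⟩ := T.nums hk hM
  apply fr_le8 _ k R (by omega) h8
  intro x hx
  have h1 := T.low x hx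
  have h2 := T.up x hx
  have h3 := le_max_left ζ (β + μ)
  have h4 := le_max_right ζ (β + μ)
  apply sq_le_sq'
  · linarith
  · linarith

theorem Trim.fb_neg (T : Trim P R y k r ζ τ β μ q) (hk : 2 ≤ k) (hM : 33 * k ≤ 2 * P.card)
    (hμ : μ ≤ 0) : fr (fun x => y x - μ) k R ≤ 3 * vr (fun x => y x - μ) k R ^ 2
      + (max (ζ - μ) β) ^ 2 * vr (fun x => y x - μ) k R := by
  obtain ⟨_, _, _, _, h8, _, _, _⟩ := T.nums hk hM
  apply fr_le8 _ k R (by omega) h8
  intro x hx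
  have h1 := T.low x hx
  have h2 := T.up x hx
  have h3 := le_max_left (ζ - μ) β
  have h4 := le_max_right (ζ - μ) β
  apply sq_le_sq'
  · linarith
  · linarith

/-- the mean of the trimmed sample is small -/
theorem Trim.t5 (T : Trim P R y k r ζ τ β μ q) (hk : 2 ≤ k) (hM : 33 * k ≤ 2 * P.card)
    (hζ : 0 < ζ) (hμ : 0 ≤ μ) (hq : q < 1 / 12) : 5 * (k * μ) ≤ max ζ (β + μ) := by
  obtain ⟨hkr, _⟩ := T.nums hk hM
  by_contra hcon
  push Not at hcon
  have hm : 0 < max ζ (β + μ) := lt_of_lt_of_le hζ (le_max_left _ _)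
  have ht : 0 < k * μ := by linarith
  have h1 := low5 (T.mean hk hM) ht hcon.le hm.le (T.fb_pos hk hM hμ)
  have h2 := T.prob (fun s => ind (k * μ) s) (fun s => by
    unfold ind
    have : -(k * μ) < s ↔ 0 < s + k * μ := by
      constructor <;> intro h <;> linarith
    simp only [this]
    exact le_rfl)
  linarith

theorem Trim.t50 (T : Trim P R y k r ζ τ β μ q) (hk : 2 ≤ k) (hM : 33 * k ≤ 2 * P.card)
    (hζ : 0 < ζ) (hμ : 0 ≤ μ) (hq : q < 1 / 100) : 50 * (k * μ) ≤ max ζ (β + μ) := by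
  obtain ⟨hkr, _⟩ := T.nums hk hM
  by_contra hcon
  push Not at hcon
  have hm : 0 < max ζ (β + μ) := lt_of_lt_of_le hζ (le_max_left _ _)
  have ht : 0 < k * μ := by linarith
  have h1 := low50 (T.mean hk hM) ht hcon.le hm.le (T.fb_pos hk hM hμ)
  have h2 := T.prob (fun s => ind (k * μ) s) (fun s => by
    unfold ind
    have : -(k * μ) < s ↔ 0 < s + k * μ := by
      constructor <;> intro h <;> linarith
    simp only [this]
    exact le_rfl)
  linarith

/-- the mean against the variance -/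
theorem Trim.t_sq (T : Trim P R y k r ζ τ β μ q) (hk : 2 ≤ k) (hM : 33 * k ≤ 2 * P.card)
    (hμ : 0 ≤ μ) : (k * μ) ^ 2 ≤ q * ((k * μ) ^ 2 + vr (fun x => y x - μ) k R) := by
  obtain ⟨hkr, _⟩ := T.nums hk hM
  have hk0 : (0 : ℝ) < k := by linarith
  have hV := T.vnn hk hM
  rcases hμ.lt_or_eq with h | h
  · have ht : 0 < k * μ := by positivity
    have h1 := cant (T.mean hk hM) ht hV
    have h2 := T.prob (fun s => ind (k * μ) s) (fun s => by
      unfold ind
      have : -(k * μ) < s ↔ 0 < s + k * μ := by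
        constructor <;> intro h <;> linarith
      simp only [this]
      exact le_rfl)
    exact h1.trans (mul_le_mul_of_nonneg_right h2 (by positivity))
  · have hq0 : 0 ≤ q := by
      have h2 := T.prob (fun s => 0) (fun s => by split_ifs <;> norm_num)
      refine le_trans ?_ h2
      exact sv_nonneg _ _ _ _ (fun s => le_rfl)
    have h1 : 0 ≤ q * vr (fun x => y x - μ) k R := mul_nonneg hq0 hV
    have e : (k : ℝ) * μ = 0 := by rw [← h, mul_zero]
    rw [e, zero_pow two_ne_zero, zero_add]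
    exact h1

theorem Trim.q_nonneg (T : Trim P R y k r ζ τ β μ q) : 0 ≤ q := by
  have h2 := T.prob (fun s => 0) (fun s => by split_ifs <;> norm_num)
  refine le_trans ?_ h2
  exact sv_nonneg _ _ _ _ (fun s => le_rfl)

theorem Trim.v_pos (T : Trim P R y k r ζ τ β μ q) (hk : 2 ≤ k) (hM : 33 * k ≤ 2 * P.card)
    (hζ : 0 < ζ) (hμ : 0 ≤ μ) : 9 / 20 * vr (fun x => y x - μ) k R
      ≤ q * (3 * vr (fun x => y x - μ) k R + (max ζ (β + μ)) ^ 2) := by
  obtain ⟨hkr, _⟩ := T.nums hk hM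
  have hk0 : (0 : ℝ) < k := by linarith
  have hB : 0 < max ζ (β + μ) := lt_of_lt_of_le hζ (le_max_left _ _)
  have h2 := T.prob (fun s => if 0 < s then 1 else 0) (fun s => by
    have ht : 0 ≤ k * μ := by positivity
    split_ifs with h1 h2
    · exact le_rfl
    · exfalso
      apply h2
      linarith
    · norm_num
    · exact le_rfl)
  have h := shift' (T.mean hk hM) le_rfl (T.vnn hk hM) hB (T.fb_pos hk hM hμ) one_pos h2
  norm_num at h
  exact h

theorem Trim.v_neg (T : Trim P R y k r ζ τ β μ q) (hk : 2 ≤ k) (hM : 33 * k ≤ 2 * P.card)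
    (hζ : 0 < ζ) (hμ : μ ≤ 0) {g : ℝ} (hg : 0 < g) : 9 / 20 * vr (fun x => y x - μ) k R
      ≤ (q + 49 / 200 * (-(k * μ)) / g) * (3 * vr (fun x => y x - μ) k R
        + (max (ζ - μ) β) ^ 2) + 49 / 200 * (-(k * μ)) * g + 9 / 10 * (k * μ) ^ 2 := by
  obtain ⟨hkr, _⟩ := T.nums hk hM
  have hk0 : (0 : ℝ) < k := by linarith
  have hB : 0 < max (ζ - μ) β := lt_of_lt_of_le (by linarith) (le_max_left _ _)
  have hm : 0 ≤ -(k * μ) := by
    have : k * μ ≤ 0 := mul_nonpos_of_nonneg_of_nonpos hk0.le hμ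
    linarith
  have h2 := T.prob (fun s => if -(k * μ) < s then 1 else 0) (fun s => by
    have : -(k * μ) < s ↔ 0 < s + k * μ := by
      constructor <;> intro h <;> linarith
    simp only [this]
    exact le_rfl)
  have h := shift' (T.mean hk hM) hm (T.vnn hk hM) hB (T.fb_neg hk hM hμ) hg h2
  rw [neg_sq] at h
  exact h

theorem Trim.ez (T : Trim P R y k r ζ τ β μ q) (hk : 2 ≤ k) (hM : 33 * k ≤ 2 * P.card) :
    ez y k R P ≤ vr (fun x => y x - μ) k R + 3 / 2 * (k * μ) ^ 2 := by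
  obtain ⟨_, _, _, _, h8, h4, _, _⟩ := T.nums hk hM
  exact ez_le y k R P T.sub hk (by omega) h4 T.mu

end

end Pool.Agent.KR6
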