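import Pool.Agent.KR6.Tail
import Pool.Agent.KR5.Near

/-!
# Second moment of the truncated sum, Cauchy-Schwarz, positive part
-/

namespace Pool.Agent.KR6

open Finset AK Pool.Agent.KR5

section
variable {ι : Type*} [DecidableEq ι]

/-- the second moment of the truncated sum -/
noncomputable def ez (y : ι → ℝ) (k : ℕ) (R P : Finset ι) : ℝ :=
  sv (zt R y) k P (fun s => s ^ 2)

theorem ez_nonneg (y : ι → ℝ) (k : ℕ) (R P : Finset ι) : 0 ≤ ez y k R P :=
  sv_nonneg _ _ _ _ (fun s => sq_nonneg s)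

theorem sq_centre (R : Finset ι) (y : ι → ℝ) (hR : 0 < R.card) {μ : ℝ}
    (hμ : μ = (∑ x ∈ R, y x) / R.card) :
    ∑ x ∈ R, y x ^ 2 = ∑ x ∈ R, (y x - μ) ^ 2 + R.card * μ ^ 2 := by
  have hM0 : (0 : ℝ) < R.card := by exact_mod_cast hR
  have hS : ∑ x ∈ R, y x = R.card * μ := by rw [hμ]; field_simp
  have : ∀ x ∈ R, (y x - μ) ^ 2 = y x ^ 2 - 2 * μ * y x + μ ^ 2 := fun x _ => by ring
  rw [sum_congr rfl this, sum_add_distrib, sum_sub_distrib, ← mul_sum, sum_const,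
    nsmul_eq_mul, hS]
  ring

theorem ez_le (y : ι → ℝ) (k : ℕ) (R P : Finset ι) (hRP : R ⊆ P) (hk : 2 ≤ k)
    (hR : 2 * k ≤ R.card) (hR4 : k + 4 ≤ R.card) {μ : ℝ} (hμ : μ = (∑ x ∈ R, y x) / R.card) :
    ez y k R P ≤ vr (fun x => y x - μ) k R + 3 / 2 * (k * μ) ^ 2 := by
  obtain ⟨M, hM⟩ : ∃ M : ℝ, M = P.card := ⟨_, rfl⟩
  obtain ⟨N, hN⟩ : ∃ N : ℝ, N = R.card := ⟨_, rfl⟩
  have hcard := card_le_card hRP
  have hMM : N ≤ M := by rw [hM, hN]; exact_mod_cast hcard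
  have hkr : (2 : ℝ) ≤ k := by exact_mod_cast hk
  have hRr : 2 * (k : ℝ) ≤ N := by rw [hN]; exact_mod_cast hR
  have hRr4 : (k : ℝ) + 4 ≤ N := by rw [hN]; exact_mod_cast hR4
  have hk0 : (0 : ℝ) < k := by linarith
  have hN0 : 0 < N := by linarith
  have hM0 : 0 < M := by linarith
  have hsq := sq_centre R y (by omega) hμ
  have hS : ∑ x ∈ R, y x = N * μ := by rw [hμ, ← hN]; field_simp
  have h1 := (moments (zt R y) k P (by omega)).2.1
  unfold ez
  rw [h1, zt_sum hRP, zt_sq hRP, ← hM, hsq, hS, ← hN]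
  unfold vr m2
  rw [← hN]
  obtain ⟨A, hA⟩ : ∃ A, A = ∑ x ∈ R, (y x - μ) ^ 2 := ⟨_, rfl⟩
  have hA0 : 0 ≤ A := by rw [hA]; exact sum_nonneg (fun x _ => sq_nonneg _)
  rw [← hA]
  have hr1 : r1 (k : ℝ) M = k / M := rfl
  have hr12 := coef_V (k : ℝ) M (by linarith)
  have hr12' := coef_V (k : ℝ) N (by linarith)
  have hr2 : r2 (k : ℝ) M ≤ (k / M) ^ 2 := by
    unfold r2
    rw [div_pow, div_le_div_iff₀ (mul_pos (by linarith) (by linarith)) (by positivity)]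
    have h3 : (k : ℝ) * (k - 1) * M ^ 2 = (k * M) * ((k - 1) * M) := by ring
    have h4 : (k : ℝ) ^ 2 * (M * (M - 1)) = (k * M) * (k * (M - 1)) := by ring
    rw [h3, h4]
    apply mul_le_mul_of_nonneg_left _ (by positivity)
    linarith
  have hr20 : 0 ≤ r2 (k : ℝ) M := by
    unfold r2
    apply div_nonneg
    · exact mul_nonneg hk0.le (by linarith)
    · exact mul_nonneg (by linarith) (by linarith)
  -- the ratio
  have hcmp : r1 (k : ℝ) M - r2 (k : ℝ) M ≤ r1 (k : ℝ) N - r2 (k : ℝ) N := by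
    rw [hr12, hr12', div_le_div_iff₀ (mul_pos (by linarith) (by linarith))
      (mul_pos (by linarith) (by linarith))]
    have h3 : (M - k) * (N * (N - 1)) ≤ (N - k) * (M * (M - 1)) := by
      have e : (N - k) * (M * (M - 1)) - (M - k) * (N * (N - 1))
          = (M - N) * (M * N - k * (M + N) + k) := by ring
      have h4 : (k : ℝ) * (M + N) ≤ M * N := by nlinarith
      have h5 : 0 ≤ (M - N) * (M * N - k * (M + N) + k) :=
        mul_nonneg (by linarith) (by linarith)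
      linarith
    calc (k : ℝ) * (M - k) * (N * (N - 1)) = k * ((M - k) * (N * (N - 1))) := by ring
      _ ≤ k * ((N - k) * (M * (M - 1))) := mul_le_mul_of_nonneg_left h3 hk0.le
      _ = _ := by ring
  have hle : r1 (k : ℝ) M - r2 (k : ℝ) M ≤ k / M := by rw [hr1]; linarith
  have e : r1 (k : ℝ) M * (A + N * μ ^ 2) + r2 (k : ℝ) M * ((N * μ) ^ 2 - (A + N * μ ^ 2))
      = (r1 (k : ℝ) M - r2 (k : ℝ) M) * A + (r1 (k : ℝ) M - r2 (k : ℝ) M) * (N * μ ^ 2)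
        + r2 (k : ℝ) M * (N * μ) ^ 2 := by ring
  rw [e]
  have h2 : (r1 (k : ℝ) M - r2 (k : ℝ) M) * A ≤ (r1 (k : ℝ) N - r2 (k : ℝ) N) * A :=
    mul_le_mul_of_nonneg_right hcmp hA0
  have h3 : (r1 (k : ℝ) M - r2 (k : ℝ) M) * (N * μ ^ 2) ≤ k / M * (N * μ ^ 2) :=
    mul_le_mul_of_nonneg_right hle (by positivity)
  have h4 : k / M * (N * μ ^ 2) ≤ 1 / 2 * (k * μ) ^ 2 := by
    rw [div_mul_eq_mul_div, div_le_iff₀ hM0]
    have h5 : (k : ℝ) * (N * μ ^ 2) ≤ k * (M * μ ^ 2) :=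
      mul_le_mul_of_nonneg_left (mul_le_mul_of_nonneg_right hMM (sq_nonneg _)) hk0.le
    have h6 : (2 : ℝ) * (k * (M * μ ^ 2)) ≤ k * (k * (M * μ ^ 2)) :=
      mul_le_mul_of_nonneg_right hkr (by positivity)
    nlinarith
  have h5 : r2 (k : ℝ) M * (N * μ) ^ 2 ≤ (k * μ) ^ 2 := by
    have h6 : r2 (k : ℝ) M * (N * μ) ^ 2 ≤ (k / M) ^ 2 * (N * μ) ^ 2 :=
      mul_le_mul_of_nonneg_right hr2 (sq_nonneg _)
    have h7 : (k / M) ^ 2 * (N * μ) ^ 2 = (k * μ) ^ 2 * (N / M) ^ 2 := by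
      field_simp
    have h8 : (N / M) ^ 2 ≤ 1 := by
      apply pow_le_one₀ (by positivity)
      rw [div_le_one hM0]
      exact hMM
    rw [h7] at h6
    nlinarith [sq_nonneg ((k : ℝ) * μ)]
  linarith

/-- Cauchy-Schwarz -/
theorem cs (P R : Finset ι) (y : ι → ℝ) (k : ℕ) (hkP : k ≤ P.card)
    (hR : ∀ x ∈ P \ R, y x ≤ 0) {x : ℝ} (hx0 : 0 ≤ x)
    (hx : (P.card.choose k : ℝ) * x ≤ ∑ S ∈ powersetCard k P, max 0 (∑ i ∈ S, y i)) :
    (P.card.choose k : ℝ) * x ^ 2 ≤ KR5.pos k y P * ez y k R P := by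
  have hm := mt_nonneg y hR
  have hC : (0 : ℝ) < (P.card.choose k : ℝ) := by exact_mod_cast Nat.choose_pos hkP
  have h1 : ∑ S ∈ powersetCard k P, max 0 (∑ i ∈ S, y i)
      ≤ ∑ S ∈ powersetCard k P, (if 0 < ∑ i ∈ S, y i then (1 : ℝ) else 0)
        * |∑ i ∈ S, zt R y i| := by
    apply sum_le_sum
    intro S hS
    rw [mem_powersetCard] at hS
    split_ifs with h
    · rw [one_mul, max_eq_right h.le]
      refine le_trans ?_ (le_abs_self _)
      apply sum_le_sum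
      intro i hi
      have h2 := zt_sub_mt R y i
      have h3 := hm i (hS.1 hi)
      linarith
    · rw [zero_mul]
      push Not at h
      rw [max_eq_left h]
  have h2 := sum_mul_sq_le_sq_mul_sq (powersetCard k P)
    (fun S => if 0 < ∑ i ∈ S, y i then (1 : ℝ) else 0) (fun S => |∑ i ∈ S, zt R y i|)
  have h3 : ∑ S ∈ powersetCard k P, (if 0 < ∑ i ∈ S, y i then (1 : ℝ) else 0) ^ 2
      = KR5.pos k y P := by
    unfold KR5.pos
    rw [card_filter]
    push_cast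
    apply sum_congr rfl
    intro S _
    split_ifs <;> norm_num
  have h4 : ∑ S ∈ powersetCard k P, |∑ i ∈ S, zt R y i| ^ 2
      = (P.card.choose k : ℝ) * ez y k R P := by
    unfold ez
    rw [mul_comm, sv_eq _ _ _ _ hkP]
    apply sum_congr rfl
    intro S _
    rw [sq_abs]
  rw [h3, h4] at h2
  have h5 : ((P.card.choose k : ℝ) * x) ^ 2
      ≤ (∑ S ∈ powersetCard k P, (if 0 < ∑ i ∈ S, y i then (1 : ℝ) else 0)
        * |∑ i ∈ S, zt R y i|) ^ 2 :=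
    pow_le_pow_left₀ (by positivity) (hx.trans h1) 2
  have h6 := h5.trans h2
  have h7 : (P.card.choose k : ℝ) * ((P.card.choose k : ℝ) * x ^ 2)
      ≤ (P.card.choose k : ℝ) * (KR5.pos k y P * ez y k R P) := by
    calc (P.card.choose k : ℝ) * ((P.card.choose k : ℝ) * x ^ 2)
        = ((P.card.choose k : ℝ) * x) ^ 2 := by ring
      _ ≤ _ := h6
      _ = _ := by ring
  exact le_of_mul_le_mul_left h7 hC

/-- the positive part of the sum of `κ + 1` elements -/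
theorem esp (P : Finset ι) (y : ι → ℝ) (κ : ℕ) (hP : κ + 5 ≤ P.card) {θ τ γ : ℝ}
    (hθ0 : 0 ≤ θ) (hθτ : θ ≤ τ) (hs : -τ ≤ ∑ x ∈ P, y x) (hγ0 : 0 ≤ γ) (hγ1 : γ ≤ 1)
    (hγ : γ * (P.card.choose κ : ℝ)
      ≤ (((powersetCard κ P).filter (fun W => ∑ x ∈ W, y x ≤ -θ)).card : ℝ)) :
    (P.card.choose (κ + 1) : ℝ) * (γ * θ - (κ + 1) / P.card * τ)
      ≤ ∑ S ∈ powersetCard (κ + 1) P, max 0 (∑ i ∈ S, y i) := by
  obtain ⟨M, hM⟩ : ∃ M : ℝ, M = P.card := ⟨_, rfl⟩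
  obtain ⟨T, hT⟩ : ∃ T : ℝ, T = ∑ x ∈ P, y x := ⟨_, rfl⟩
  rw [← hT] at hs
  have hPr : (κ : ℝ) + 5 ≤ M := by rw [hM]; exact_mod_cast hP
  have hκ : (0 : ℝ) ≤ κ := Nat.cast_nonneg κ
  have hM0 : 0 < M := by linarith
  obtain ⟨C, hC⟩ : ∃ C : ℝ, C = (P.card.choose κ : ℝ) := ⟨_, rfl⟩
  have hC0 : 0 < C := by rw [hC]; exact_mod_cast Nat.choose_pos (by omega)
  have hCC : (P.card.choose (κ + 1) : ℝ) * ((κ : ℝ) + 1) = C * (M - κ) := by
    have h2 := Nat.choose_succ_right_eq P.card κ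
    have h3 : ((P.card.choose (κ + 1) * (κ + 1) : ℕ) : ℝ)
        = ((P.card.choose κ * (P.card - κ) : ℕ) : ℝ) := by rw [h2]
    rw [Nat.cast_mul, Nat.cast_mul, Nat.cast_sub (by omega)] at h3
    push_cast at h3
    rw [hC, hM]
    exact h3
  -- double counting
  have hsw := swap_sum P κ (fun W x => max 0 (∑ i ∈ W, y i + y x))
  have h1 : ∑ V ∈ powersetCard (κ + 1) P, ∑ x ∈ V, max 0 (∑ i ∈ V.erase x, y i + y x)
      = ((κ : ℝ) + 1) * ∑ S ∈ powersetCard (κ + 1) P, max 0 (∑ i ∈ S, y i) := by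
    rw [mul_sum]
    apply sum_congr rfl
    intro V hV
    rw [mem_powersetCard] at hV
    rw [sum_congr rfl (fun x hx => by rw [sum_erase_add V y hx]), sum_const, hV.2, nsmul_eq_mul]
    push_cast
    ring
  rw [h1] at hsw
  have h2 : ∀ W ∈ powersetCard κ P,
      ((M - κ - 1) * ∑ i ∈ W, y i + T) + (if ∑ i ∈ W, y i ≤ -θ then (1 : ℝ) else 0)
        * ((M - κ - 1) * θ - T) ≤ ∑ x ∈ P \ W, max 0 (∑ i ∈ W, y i + y x) := by
    intro W hW
    rw [mem_powersetCard] at hW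
    obtain ⟨w, hw⟩ : ∃ w : ℝ, w = ∑ i ∈ W, y i := ⟨_, rfl⟩
    rw [← hw]
    have h3 : ∑ x ∈ P \ W, (w + y x) = (M - κ - 1) * w + T := by
      rw [sum_add_distrib, sum_const, nsmul_eq_mul, card_sdiff_of_subset hW.1, hW.2,
        Nat.cast_sub (by omega), ← hM]
      have h4 := sum_sdiff (f := y) hW.1
      rw [← hw, ← hT] at h4
      linarith
    have h5 : ∑ x ∈ P \ W, (w + y x) ≤ ∑ x ∈ P \ W, max 0 (w + y x) :=
      sum_le_sum (fun x _ => le_max_right _ _)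
    have h6 : 0 ≤ ∑ x ∈ P \ W, max 0 (w + y x) := sum_nonneg (fun x _ => le_max_left _ _)
    split_ifs with h
    · rw [one_mul]
      have h7 : (M - κ - 1) * w ≤ (M - κ - 1) * (-θ) :=
        mul_le_mul_of_nonneg_left h (by linarith)
      linarith
    · rw [zero_mul]
      linarith
  have h3 := sum_le_sum h2
  rw [← hsw, sum_add_distrib, sum_add_distrib, ← mul_sum, sum_const, nsmul_eq_mul,
    card_powersetCard, ← hC, ← sum_mul] at h3
  have h4 : ∑ W ∈ powersetCard κ P, (if ∑ i ∈ W, y i ≤ -θ then (1 : ℝ) else 0)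
      = (((powersetCard κ P).filter (fun W => ∑ x ∈ W, y x ≤ -θ)).card : ℝ) := by
    rw [card_filter]
    push_cast
    rfl
  have h5 : ∑ W ∈ powersetCard κ P, ∑ i ∈ W, y i = C * (κ / M * T) := by
    have h6 := sv_eq y κ P (fun s => s) (by omega)
    have h7 := (moments y κ P (by omega)).1
    rw [h7, ← hT, ← hM, ← hC] at h6
    rw [← h6]
    unfold m1 r1
    ring
  rw [h4, h5] at h3
  obtain ⟨g, hg⟩ : ∃ g : ℝ, g = (((powersetCard κ P).filter
    (fun W => ∑ x ∈ W, y x ≤ -θ)).card : ℝ) := ⟨_, rfl⟩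
  obtain ⟨Z, hZ⟩ : ∃ Z : ℝ, Z = ∑ S ∈ powersetCard (κ + 1) P, max 0 (∑ i ∈ S, y i) := ⟨_, rfl⟩
  rw [← hg, ← hZ] at h3
  rw [← hC, ← hg] at hγ
  rw [← hM, ← hZ]
  -- case distinction on the sign of the coefficient
  have hk0 : (0 : ℝ) < (κ : ℝ) + 1 := by positivity
  suffices hsuf : (C * (M - κ)) * (γ * θ - (κ + 1) / M * τ) ≤ ((κ : ℝ) + 1) * Z by
    have h6 : ((κ : ℝ) + 1) * ((P.card.choose (κ + 1) : ℝ) * (γ * θ - (κ + 1) / M * τ))
        ≤ ((κ : ℝ) + 1) * Z := by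
      calc _ = ((P.card.choose (κ + 1) : ℝ) * ((κ : ℝ) + 1))
            * (γ * θ - (κ + 1) / M * τ) := by ring
        _ = (C * (M - κ)) * (γ * θ - (κ + 1) / M * τ) := by rw [hCC]
        _ ≤ _ := hsuf
    exact le_of_mul_le_mul_left h6 hk0
  -- the first two terms
  have e1 : (M - κ - 1) * (C * (κ / M * T)) + C * T = C * (M - κ) * ((κ + 1) / M * T) := by
    field_simp
    ring
  rw [e1] at h3
  have hcoef : (M - κ) * ((κ + 1) / M) ≥ 1 := by
    rw [ge_iff_le, mul_div_assoc', le_div_iff₀ hM0]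
    nlinarith
  rcases le_or_gt 0 ((M - κ - 1) * θ - T) with hpos | hneg
  · have h6 : γ * C * ((M - κ - 1) * θ - T) ≤ g * ((M - κ - 1) * θ - T) :=
      mul_le_mul_of_nonneg_right hγ hpos
    have h7 : C * ((M - κ) * (γ * θ - (κ + 1) / M * τ))
        ≤ C * ((M - κ) * ((κ + 1) / M) * T + γ * ((M - κ - 1) * θ - T)) := by
      apply mul_le_mul_of_nonneg_left _ hC0.le
      have h8 : ((M - κ) * ((κ + 1) / M) - γ) * (-τ) ≤ ((M - κ) * ((κ + 1) / M) - γ) * T :=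
        mul_le_mul_of_nonneg_left hs (by linarith)
      have h9 : γ * θ ≤ γ * τ := mul_le_mul_of_nonneg_left hθτ hγ0
      nlinarith
    calc (C * (M - κ)) * (γ * θ - (κ + 1) / M * τ)
        = C * ((M - κ) * (γ * θ - (κ + 1) / M * τ)) := by ring
      _ ≤ _ := h7
      _ = C * (M - κ) * ((κ + 1) / M * T) + γ * C * ((M - κ - 1) * θ - T) := by ring
      _ ≤ _ := by linarith
  · -- then `T` is large
    have hgC : g ≤ C := by
      rw [hg, hC, ← card_powersetCard κ P]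
      exact_mod_cast card_filter_le _ _
    have h6 : C * ((M - κ - 1) * θ - T) ≤ g * ((M - κ - 1) * θ - T) :=
      mul_le_mul_of_nonpos_right hgC hneg.le
    have h7 : C * ((M - κ) * (γ * θ - (κ + 1) / M * τ))
        ≤ C * ((M - κ) * ((κ + 1) / M) * T + ((M - κ - 1) * θ - T)) := by
      apply mul_le_mul_of_nonneg_left _ hC0.le
      have hT0 : 0 ≤ T := le_trans (mul_nonneg (by linarith) hθ0) (by linarith : (M - κ - 1) * θ ≤ T)
      have h8 : 0 ≤ ((M - κ) * ((κ + 1) / M) - 1) * T := mul_nonneg (by linarith) hT0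
      have h9 : (M - κ) * (γ * θ) ≤ (M - κ) * θ := by
        apply mul_le_mul_of_nonneg_left _ (by linarith)
        nlinarith
      have h10 : 1 * τ ≤ (M - κ) * ((κ + 1) / M) * τ :=
        mul_le_mul_of_nonneg_right hcoef (by linarith)
      nlinarith
    calc (C * (M - κ)) * (γ * θ - (κ + 1) / M * τ)
        = C * ((M - κ) * (γ * θ - (κ + 1) / M * τ)) := by ring
      _ ≤ _ := h7
      _ = C * (M - κ) * ((κ + 1) / M * T) + C * ((M - κ - 1) * θ - T) := by ring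
      _ ≤ _ := by linarith

end

end Pool.Agent.KR6
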