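import Pool.Agent.KR6.Cons
import Pool.Agent.KR5.Full

/-!
# Populations of positive total: almost the conjectured number of positive sets
-/

namespace Pool.Agent.KR6

open Finset AK Pool.Agent.KR5

section
variable {ι : Type*} [DecidableEq ι]

/-- sets with and without `ω` -/
theorem split_ge (P : Finset ι) (y : ι → ℝ) (κ : ℕ) {ω : ι} (hω : ω ∈ P) :
    ((powersetCard κ (P.erase ω)).filter (fun V => -y ω < ∑ x ∈ V, y x)).card
      + KR5.pos (κ + 1) y (P.erase ω) ≤ KR5.pos (κ + 1) y P := by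
  unfold KR5.pos
  rw [← card_image_of_injOn (s := (powersetCard κ (P.erase ω)).filter
    (fun V => -y ω < ∑ x ∈ V, y x)) (f := fun V => insert ω V)]
  · rw [← card_union_of_disjoint]
    · apply card_le_card
      intro V hV
      rw [mem_union, mem_image] at hV
      rw [mem_filter, mem_powersetCard]
      rcases hV with ⟨W, hW, rfl⟩ | hV
      · rw [mem_filter, mem_powersetCard] at hW
        have hωV : ω ∉ W := fun h => notMem_erase ω P (hW.1.1 h)
        refine ⟨⟨?_, ?_⟩, ?_⟩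
        · exact insert_subset hω (hW.1.1.trans (erase_subset _ _))
        · rw [card_insert_of_notMem hωV, hW.1.2]
        · rw [sum_insert hωV]
          linarith [hW.2]
      · rw [mem_filter, mem_powersetCard] at hV
        exact ⟨⟨hV.1.1.trans (erase_subset _ _), hV.1.2⟩, hV.2⟩
    · rw [Finset.disjoint_left]
      intro V hV hV2
      rw [mem_image] at hV
      obtain ⟨W, _, rfl⟩ := hV
      rw [mem_filter, mem_powersetCard] at hV2
      exact notMem_erase ω P (hV2.1.1 (mem_insert_self ω W))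
  · intro V hV V' hV' h
    rw [mem_coe, mem_filter, mem_powersetCard] at hV hV'
    have h1 : ω ∉ V := fun h => notMem_erase ω P (hV.1.1 h)
    have h2 : ω ∉ V' := fun h => notMem_erase ω P (hV'.1.1 h)
    have h3 : (insert ω V).erase ω = (insert ω V').erase ω := by
      have h' : insert ω V = insert ω V' := h
      rw [h']
    rwa [erase_insert h1, erase_insert h2] at h3

theorem filter_compl (P : Finset ι) (y : ι → ℝ) (κ : ℕ) (θ : ℝ) :
    ((powersetCard κ P).filter (fun V => -θ < ∑ x ∈ V, y x)).card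
      + ((powersetCard κ P).filter (fun V => ∑ x ∈ V, y x ≤ -θ)).card = P.card.choose κ := by
  rw [← card_powersetCard κ P, ← card_filter_add_card_filter_not
    (s := powersetCard κ P) (fun V => -θ < ∑ x ∈ V, y x)]
  congr 2
  apply filter_congr
  intro V _
  rw [not_lt]

theorem choose_rel' (M κ : ℕ) (hM : κ ≤ M) :
    (M.choose (κ + 1) : ℝ) * ((κ : ℝ) + 1) = (M.choose κ : ℝ) * ((M : ℝ) - κ) := by
  have h2 := Nat.choose_succ_right_eq M κ
  have h4 : ((M.choose (κ + 1) * (κ + 1) : ℕ) : ℝ) = ((M.choose κ * (M - κ) : ℕ) : ℝ) := by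
    rw [h2]
  rw [Nat.cast_mul, Nat.cast_mul, Nat.cast_sub hM] at h4
  push_cast at h4
  exact h4

/-- the contradiction: large `γ` -/
theorem lam_core {κ : ℕ} (hκ : 1 ≤ κ) (P : Finset ι) (y : ι → ℝ) (hM : 17 * (κ + 1) ≤ P.card)
    (hy : ∀ x ∈ P, y x ≤ 1) (hs : -1 ≤ ∑ x ∈ P, y x) {u : ℝ} (hu0 : 0 ≤ u) (hu1 : u ≤ 7 / 8)
    (hg : (u + 1 / 8) * (P.card.choose κ : ℝ)
      ≤ (((powersetCard κ P).filter (fun W => ∑ x ∈ W, y x ≤ -1)).card : ℝ)) :
    u / 16 * (P.card.choose (κ + 1) : ℝ) < KR5.pos (κ + 1) y P := by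
  by_contra hcon
  push Not at hcon
  have hk2 : 2 ≤ κ + 1 := by omega
  have hM33 : 33 * (κ + 1) ≤ 2 * P.card := by omega
  have hMr : 17 * ((κ : ℝ) + 1) ≤ P.card := by exact_mod_cast hM
  have hκr : (1 : ℝ) ≤ κ := by exact_mod_cast hκ
  have hM0 : (0 : ℝ) < P.card := by linarith
  have hC : (0 : ℝ) < (P.card.choose (κ + 1) : ℝ) := by exact_mod_cast Nat.choose_pos (by omega)
  obtain ⟨q, hq⟩ : ∃ q, q = 3 / 32 * u := ⟨_, rfl⟩
  have hq1 : q < 1 / 12 := by rw [hq]; linarith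
  obtain ⟨R, r, β, μ, T⟩ := exists_trim (ζ := 1) (τ := 1) (q := q) P y hk2 hM33 hy hs
    (by linarith) (by rw [hq]; linarith)
  obtain ⟨hkr, _, h56, hRM, _, _, _, hR0⟩ := T.nums hk2 hM33
  obtain ⟨k, hk⟩ : ∃ k : ℝ, k = ((κ + 1 : ℕ) : ℝ) := ⟨_, rfl⟩
  have hk' : k = (κ : ℝ) + 1 := by rw [hk]; push_cast; ring
  rw [← hk] at hkr
  -- the mean
  have hE := esp P y κ (by omega) (θ := 1) (τ := 1) (γ := u + 1 / 8) (by norm_num) le_rfl hs
    (by linarith) (by linarith) hg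
  have hx0 : 0 ≤ (u + 1 / 8) * 1 - ((κ : ℝ) + 1) / P.card * 1 := by
    have : ((κ : ℝ) + 1) / P.card ≤ 1 / 17 := by
      rw [div_le_div_iff₀ hM0 (by norm_num)]
      linarith
    linarith
  have hcs := cs P R y (κ + 1) (by omega) T.off hx0 (by push_cast at hE ⊢; exact hE)
  have hez0 := ez_nonneg y (κ + 1) R P
  have h1 : (P.card.choose (κ + 1) : ℝ) * ((u + 1 / 8) * 1 - ((κ : ℝ) + 1) / P.card * 1) ^ 2
      ≤ (P.card.choose (κ + 1) : ℝ) * (u / 16 * ez y (κ + 1) R P) := by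
    calc _ ≤ _ := hcs
      _ ≤ (u / 16 * (P.card.choose (κ + 1) : ℝ)) * ez y (κ + 1) R P :=
          mul_le_mul_of_nonneg_right hcon hez0
      _ = _ := by ring
  have h2 := le_of_mul_le_mul_left h1 hC
  have h3 : (u + 1 / 16) ^ 2 ≤ ((u + 1 / 8) * 1 - ((κ : ℝ) + 1) / P.card * 1) ^ 2 := by
    apply pow_le_pow_left₀ (by linarith)
    have : ((κ : ℝ) + 1) / P.card ≤ 1 / 17 := by
      rw [div_le_div_iff₀ hM0 (by norm_num)]
      linarith
    linarith
  have h4 := h3.trans h2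
  have hez := T.ez hk2 hM33
  obtain ⟨V, hV⟩ : ∃ V, V = vr (fun x => y x - μ) (κ + 1) R := ⟨_, rfl⟩
  have hV0 := T.vnn hk2 hM33
  rw [← hV] at hez hV0
  rw [← hk] at hez
  -- numbers
  have hc' : k / R.card ≤ 6 / 85 := by
    rw [div_le_div_iff₀ hR0 (by norm_num), hk']
    linarith
  have hα := T.kr (K := 17) (by norm_num) (by push_cast; linarith)
  have htl := T.t_low hk2 hM33 (α := 14 / 51) (by norm_num) (by
    have e : (1 / 3 - 1 / 17 : ℝ) = 14 / 51 := by norm_num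
    rw [e] at hα
    exact hα)
  rw [← hk] at htl
  have hβ := T.beta
  obtain ⟨t, ht⟩ : ∃ t, t = k * μ := ⟨_, rfl⟩
  rw [← ht] at htl hez
  rcases le_or_gt 0 μ with hμ | hμ
  · have h5 := T.t5 hk2 hM33 one_pos hμ hq1
    have h6 := T.v_pos hk2 hM33 one_pos hμ
    have h7 := T.t_sq hk2 hM33 hμ
    rw [← hV] at h6 h7
    rw [← hk, ← ht] at h5 h7
    have hμt : μ ≤ t / 2 := by rw [ht]; nlinarith
    have hB : max 1 (β + μ) ≤ 3 / 2 := by
      rcases max_cases 1 (β + μ) with ⟨h8, _⟩ | ⟨h8, _⟩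
      · rw [h8]; norm_num
      · rw [h8] at h5 ⊢
        linarith
    have hB0 : 0 ≤ max 1 (β + μ) := le_trans zero_le_one (le_max_left _ _)
    have hB2 : (max 1 (β + μ)) ^ 2 ≤ 9 / 4 := by
      calc (max 1 (β + μ)) ^ 2 ≤ (3 / 2) ^ 2 := pow_le_pow_left₀ hB0 hB 2
        _ = 9 / 4 := by norm_num
    have hq0 := T.q_nonneg
    have h8 : q * (3 * V + (max 1 (β + μ)) ^ 2) ≤ q * (3 * V + 9 / 4) :=
      mul_le_mul_of_nonneg_left (by linarith) hq0
    have h9 : V ≤ 25 / 2 * q := by nlinarith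
    have h10 : t ^ 2 ≤ V / 10 := by nlinarith
    have h11 : u / 16 * ez y (κ + 1) R P ≤ u / 16 * (15 * q) := by
      apply mul_le_mul_of_nonneg_left _ (by positivity)
      linarith
    rw [hq] at h11
    nlinarith
  · have h6 := T.v_neg hk2 hM33 one_pos hμ.le (g := 3 / 2) (by norm_num)
    rw [← hV, ← hk, ← ht] at h6
    have ht0 : t ≤ 0 := by rw [ht]; nlinarith
    have htl2 : -t ≤ 6 / 85 := by linarith
    have hμ2 : -μ ≤ 3 / 85 := by
      have : k * (-μ) ≤ 6 / 85 := by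
        have e : k * (-μ) = -t := by rw [ht]; ring
        rw [e]
        exact htl2
      nlinarith
    have hβ2 : β ≤ 1 := by linarith
    have hB : max (1 - μ) β ≤ 26 / 25 := by
      apply max_le
      · linarith
      · linarith
    have hB0 : 0 ≤ max (1 - μ) β := le_trans (by linarith) (le_max_left _ _)
    have hB2 : (max (1 - μ) β) ^ 2 ≤ 11 / 10 := by
      calc (max (1 - μ) β) ^ 2 ≤ (26 / 25) ^ 2 := pow_le_pow_left₀ hB0 hB 2
        _ ≤ 11 / 10 := by norm_num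
    have hq0 := T.q_nonneg
    have hcoef : q + 49 / 200 * (-t) / (3 / 2) ≤ q + 12 / 1000 := by linarith
    have hcoef0 : 0 ≤ q + 49 / 200 * (-t) / (3 / 2) := by linarith
    have h8 : (q + 49 / 200 * (-t) / (3 / 2)) * (3 * V + (max (1 - μ) β) ^ 2)
        ≤ (q + 12 / 1000) * (3 * V + 11 / 10) :=
      mul_le_mul hcoef (by linarith) (by positivity) (by linarith)
    have ht2 : t ^ 2 ≤ 1 / 200 := by nlinarith
    have h9 : V ≤ 7 * q + 3 / 10 := by nlinarith
    have h11 : u / 16 * ez y (κ + 1) R P ≤ u / 16 * (7 * q + 31 / 100) := by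
      apply mul_le_mul_of_nonneg_left _ (by positivity)
      linarith
    rw [hq] at h11
    nlinarith

/-- at least `7 / 8` of the conjectured number of positive sets -/
theorem lam {κ : ℕ} (hκ : 1 ≤ κ) (P : Finset ι) (y : ι → ℝ) (hM : 17 * (κ + 1) + 1 ≤ P.card)
    (hs : 0 < ∑ x ∈ P, y x) :
    7 / 8 * ((P.card - 1).choose κ : ℝ) ≤ KR5.pos (κ + 1) y P := by
  have hne : P.Nonempty := card_pos.1 (by omega)
  obtain ⟨ω, hω, hmax⟩ := exists_max_image P y hne
  have h0 : 0 < y ω := by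
    by_contra hcon
    push Not at hcon
    have : ∑ x ∈ P, y x ≤ 0 := sum_nonpos (fun x hx => (hmax x hx).trans hcon)
    linarith
  rw [← pos_scale (κ + 1) y P h0]
  obtain ⟨z, hz⟩ : ∃ z : ι → ℝ, z = fun x => y x / y ω := ⟨_, rfl⟩
  rw [← hz]
  have hzω : z ω = 1 := by rw [hz]; exact div_self h0.ne'
  have hz1 : ∀ x ∈ P, z x ≤ 1 := by
    intro x hx
    rw [hz]
    show y x / y ω ≤ 1
    rw [div_le_one h0]
    exact hmax x hx
  have hzs : 0 < ∑ x ∈ P, z x := by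
    rw [hz]
    show 0 < ∑ x ∈ P, y x / y ω
    rw [← sum_div]
    exact div_pos hs h0
  have hc : (P.erase ω).card = P.card - 1 := card_erase_of_mem hω
  have hes : -1 ≤ ∑ x ∈ P.erase ω, z x := by
    have := add_sum_erase P z hω
    linarith
  by_contra hcon
  push Not at hcon
  have h1 := split_ge P z κ hω
  have h2 := filter_compl (P.erase ω) z κ 1
  rw [hzω] at h1
  rw [hc] at h2
  obtain ⟨M, hM'⟩ : ∃ M, M = P.card - 1 := ⟨_, rfl⟩
  rw [← hM'] at h2 hcon hc
  obtain ⟨g, hg⟩ : ∃ g : ℕ, g = ((powersetCard κ (P.erase ω)).filter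
    (fun V => ∑ x ∈ V, z x ≤ -1)).card := ⟨_, rfl⟩
  rw [← hg] at h2
  have hCκ : (0 : ℝ) < (M.choose κ : ℝ) := by exact_mod_cast Nat.choose_pos (by omega)
  have h1r : (((powersetCard κ (P.erase ω)).filter (fun V => -1 < ∑ x ∈ V, z x)).card : ℝ)
      + (KR5.pos (κ + 1) z (P.erase ω) : ℝ) ≤ KR5.pos (κ + 1) z P := by exact_mod_cast h1
  have h2r : (((powersetCard κ (P.erase ω)).filter (fun V => -1 < ∑ x ∈ V, z x)).card : ℝ)
      + g = M.choose κ := by exact_mod_cast h2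
  obtain ⟨u, hu⟩ : ∃ u : ℝ, u = g / (M.choose κ : ℝ) - 1 / 8 := ⟨_, rfl⟩
  have hgu : (g : ℝ) = (u + 1 / 8) * (M.choose κ : ℝ) := by
    rw [hu]
    field_simp
    ring
  have hp0 : (0 : ℝ) ≤ KR5.pos (κ + 1) z (P.erase ω) := Nat.cast_nonneg _
  have hu0 : 0 ≤ u := by
    by_contra h
    push Not at h
    have : (g : ℝ) ≤ 1 / 8 * (M.choose κ : ℝ) := by rw [hgu]; nlinarith
    linarith
  have hu1 : u ≤ 7 / 8 := by
    by_contra h
    push Not at h
    have h3 : (M.choose κ : ℝ) < g := by rw [hgu]; nlinarith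
    have h4 : (0 : ℝ) ≤ (((powersetCard κ (P.erase ω)).filter
      (fun V => -1 < ∑ x ∈ V, z x)).card : ℝ) := Nat.cast_nonneg _
    linarith
  have h3 := lam_core hκ (P.erase ω) z (by rw [hc]; omega)
    (fun x hx => hz1 x (mem_of_mem_erase hx)) hes hu0 hu1 (by rw [hc, ← hg, hgu])
  rw [hc] at h3
  have h4 := choose_rel' M κ (by omega)
  have hMr : 17 * ((κ : ℝ) + 1) ≤ M := by
    have : 17 * (κ + 1) ≤ M := by omega
    exact_mod_cast this
  have hκ0 : (0 : ℝ) ≤ κ := Nat.cast_nonneg κ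
  -- `u C(M, κ) ≤ (u / 16) C(M, κ + 1)`
  have h5 : u * (M.choose κ : ℝ) * (16 * ((κ : ℝ) + 1))
      ≤ u / 16 * (M.choose (κ + 1) : ℝ) * (16 * ((κ : ℝ) + 1)) := by
    have h6 : (16 * ((κ : ℝ) + 1)) ≤ (M : ℝ) - κ := by linarith
    calc u * (M.choose κ : ℝ) * (16 * ((κ : ℝ) + 1)) ≤ u * (M.choose κ : ℝ) * ((M : ℝ) - κ) :=
          mul_le_mul_of_nonneg_left h6 (by positivity)
      _ = u * ((M.choose (κ + 1) : ℝ) * ((κ : ℝ) + 1)) := by rw [h4]; ring
      _ = _ := by ring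
  have h6 : u * (M.choose κ : ℝ) ≤ u / 16 * (M.choose (κ + 1) : ℝ) :=
    le_of_mul_le_mul_right h5 (by positivity)
  rw [hgu] at h2r
  linarith

end

end Pool.Agent.KR6
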