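import Pool.Agent.KR6.Shape
import Pool.Agent.KR6.Lam

/-!
# The estimates for disjoint pairs
-/

namespace Pool.Agent.KR6

open Finset AK Pool.Agent.KR5

section
variable {ι : Type*} [DecidableEq ι]

theorem near_a {κ N : ℕ} (hκ : 1 ≤ κ) (hN1 : 18 * (κ + 1) ≤ N) (Q : Finset ι) (y : ι → ℝ)
    (hN : Q.card = N) (hs : -1 < ∑ x ∈ Q, y x) (W : Finset ι) (hW : W ∈ powersetCard κ Q)
    (hW1 : ∑ x ∈ W, y x ≤ -1) :
    7 / 8 * (((κ : ℝ) + 1) / N) * ((N - κ).choose (κ + 1) : ℝ) ≤ KR5.pos (κ + 1) y (Q \ W) := by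
  have hNr : 18 * ((κ : ℝ) + 1) ≤ N := by exact_mod_cast hN1
  have hκr : (1 : ℝ) ≤ κ := by exact_mod_cast hκ
  have hN0 : (0 : ℝ) < N := by linarith
  rw [mem_powersetCard] at hW
  have hc : (Q \ W).card = N - κ := by rw [card_sdiff_of_subset hW.1, hN, hW.2]
  have hcr : ((Q \ W).card : ℝ) = N - κ := by
    rw [hc, Nat.cast_sub (by omega)]
  have hsum : 0 < ∑ x ∈ Q \ W, y x := by
    have h2 := sum_sdiff (f := y) hW.1
    linarith
  have h1 := lam hκ (Q \ W) y (by rw [hc]; omega) hsum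
  refine le_trans ?_ h1
  have h2 := choose_rel (Q \ W).card κ (by omega)
  rw [hcr] at h2
  rw [hc] at h2 ⊢
  have hC : (0 : ℝ) ≤ ((N - κ - 1).choose κ : ℝ) := Nat.cast_nonneg _
  have h3 : ((N - κ).choose (κ + 1) : ℝ) * ((κ : ℝ) + 1) ≤ ((N - κ - 1).choose κ : ℝ) * N := by
    rw [← h2]
    apply mul_le_mul_of_nonneg_left _ hC
    linarith
  have h4 : ((κ : ℝ) + 1) / N * ((N - κ).choose (κ + 1) : ℝ) ≤ ((N - κ - 1).choose κ : ℝ) := by
    rw [div_mul_eq_mul_div, div_le_iff₀ hN0]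
    linarith
  linarith

theorem near_b {κ N : ℕ} (hN1 : 18 * (κ + 1) ≤ N) (Q R : Finset ι) (y : ι → ℝ)
    (hRQ : R ⊆ Q) (hN : Q.card = N) (hR : ∀ x ∈ Q \ R, y x ≤ 0)
    (hR2 : ∑ x ∈ R, y x ≤ 2 / 25) (hR3 : ∑ x ∈ R, y x ^ 2 ≤ 68 / 5 * (((κ : ℝ) + 1) / N))
    (W : Finset ι) (hW : W ∈ powersetCard κ Q) (hW1 : -5 ≤ ∑ x ∈ W, y x) :
    (((powersetCard (κ + 1) (Q \ W)).filter (fun S => 3 < ∑ x ∈ S, y x)).card : ℝ)
      ≤ 11 / 100 * (((κ : ℝ) + 1) / N) * ((N - κ).choose (κ + 1) : ℝ) := by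
  have hNr : 18 * ((κ : ℝ) + 1) ≤ N := by exact_mod_cast hN1
  have hκ : (0 : ℝ) ≤ κ := Nat.cast_nonneg κ
  have hN0 : (0 : ℝ) < N := by linarith
  rw [mem_powersetCard] at hW
  have hc : (Q \ W).card = N - κ := by rw [card_sdiff_of_subset hW.1, hN, hW.2]
  have hcr : ((Q \ W).card : ℝ) = N - κ := by
    rw [hc, Nat.cast_sub (by omega)]
  have hP0 : (0 : ℝ) < (Q \ W).card := by rw [hcr]; linarith
  have hm := mt_nonneg y hR
  have hyz : ∀ V ⊆ Q, ∑ x ∈ V, y x ≤ ∑ x ∈ V, zt R y x := by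
    intro V hV
    apply sum_le_sum
    intro x hx
    have h1 := zt_sub_mt R y x
    have h2 := hm x (hV hx)
    linarith
  have hs1 : ∑ x ∈ Q \ W, zt R y x ≤ 127 / 25 := by
    have h1 := sum_sdiff (f := zt R y) hW.1
    rw [zt_sum hRQ] at h1
    have h2 := hyz W hW.1
    linarith
  have hs2 : ∑ x ∈ Q \ W, zt R y x ^ 2 ≤ 68 / 5 * (((κ : ℝ) + 1) / N) := by
    refine le_trans ?_ hR3
    rw [← zt_sq hRQ]
    apply sum_le_sum_of_subset_of_nonneg sdiff_subset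
    intro x _ _
    positivity
  have hratio : ((κ + 1 : ℕ) : ℝ) / (Q \ W).card ≤ 1 / 17 := by
    rw [div_le_div_iff₀ hP0 (by norm_num), hcr]
    push_cast
    linarith
  have hratio0 : 0 ≤ ((κ + 1 : ℕ) : ℝ) / (Q \ W).card := by positivity
  have h1 := cheb_up (Q \ W) (zt R y) (κ + 1) (by rw [hc]; omega) (L := 27 / 10) (θ := 3)
    (by norm_num) (by
      have h2 : ((κ + 1 : ℕ) : ℝ) / (Q \ W).card * ∑ x ∈ Q \ W, zt R y x
          ≤ ((κ + 1 : ℕ) : ℝ) / (Q \ W).card * (127 / 25) :=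
        mul_le_mul_of_nonneg_left hs1 hratio0
      have h3 : ((κ + 1 : ℕ) : ℝ) / (Q \ W).card * (127 / 25) ≤ 1 / 17 * (127 / 25) :=
        mul_le_mul_of_nonneg_right hratio (by norm_num)
      linarith)
  have h2 : (((powersetCard (κ + 1) (Q \ W)).filter (fun S => 3 < ∑ x ∈ S, y x)).card : ℝ)
      ≤ (((powersetCard (κ + 1) (Q \ W)).filter (fun S => 3 ≤ ∑ x ∈ S, zt R y x)).card : ℝ) := by
    have : ((powersetCard (κ + 1) (Q \ W)).filter (fun S => 3 < ∑ x ∈ S, y x)).card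
        ≤ ((powersetCard (κ + 1) (Q \ W)).filter (fun S => 3 ≤ ∑ x ∈ S, zt R y x)).card := by
      apply card_le_card
      intro V hV
      rw [mem_filter, mem_powersetCard] at hV ⊢
      refine ⟨hV.1, ?_⟩
      have := hyz V (hV.1.1.trans sdiff_subset)
      linarith [hV.2]
    exact_mod_cast this
  rw [hc] at h1
  have hC : (0 : ℝ) ≤ ((N - κ).choose (κ + 1) : ℝ) := Nat.cast_nonneg _
  have h3 : ((κ + 1 : ℕ) : ℝ) / (N - κ : ℕ) * ∑ x ∈ Q \ W, zt R y x ^ 2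
      ≤ 1 / 17 * (68 / 5 * (((κ : ℝ) + 1) / N)) := by
    rw [← hc]
    apply mul_le_mul hratio hs2 (sum_nonneg (fun x _ => sq_nonneg _)) (by norm_num)
  have h4 : ((N - κ).choose (κ + 1) : ℝ) * (((κ + 1 : ℕ) : ℝ) / (N - κ : ℕ)
        * ∑ x ∈ Q \ W, zt R y x ^ 2)
      ≤ ((N - κ).choose (κ + 1) : ℝ) * (1 / 17 * (68 / 5 * (((κ : ℝ) + 1) / N))) :=
    mul_le_mul_of_nonneg_left h3 hC
  have h5 : 0 ≤ (((κ : ℝ) + 1) / N) * ((N - κ).choose (κ + 1) : ℝ) := by positivity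
  nlinarith

theorem near_c {κ N : ℕ} (hN1 : 18 * (κ + 1) ≤ N) (Q R : Finset ι) (y : ι → ℝ)
    (hRQ : R ⊆ Q) (hN : Q.card = N) (hs : -1 ≤ ∑ x ∈ Q, y x) (hR : ∀ x ∈ Q \ R, y x ≤ 0)
    (hR1 : -∑ x ∈ Q \ R, y x ≤ 27 / 25)
    (hR3 : ∑ x ∈ R, y x ^ 2 ≤ 68 / 5 * (((κ : ℝ) + 1) / N))
    (S : Finset ι) (hS : S ∈ powersetCard (κ + 1) Q) (hS1 : ∑ x ∈ S, y x ≤ 3) :
    (((powersetCard κ (Q \ S)).filter (fun W => ∑ x ∈ W, y x ≤ -1)).card : ℝ)
      ≤ 8 * (((κ : ℝ) + 1) / N) * ((N - (κ + 1)).choose κ : ℝ) := by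
  have hNr : 18 * ((κ : ℝ) + 1) ≤ N := by exact_mod_cast hN1
  have hκ : (0 : ℝ) ≤ κ := Nat.cast_nonneg κ
  have hN0 : (0 : ℝ) < N := by linarith
  rw [mem_powersetCard] at hS
  have hc : (Q \ S).card = N - (κ + 1) := by rw [card_sdiff_of_subset hS.1, hN, hS.2]
  have hcr : ((Q \ S).card : ℝ) = N - (κ + 1) := by
    rw [hc, Nat.cast_sub (by omega)]
    push_cast
    ring
  have hP0 : (0 : ℝ) < (Q \ S).card := by rw [hcr]; linarith
  have hm := mt_nonneg y hR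
  have hm' : ∀ x ∈ Q \ S, 0 ≤ mt R y x := fun x hx => hm x (mem_sdiff.1 hx).1
  have hsz : ∀ V : Finset ι, ∑ x ∈ V, y x = ∑ x ∈ V, zt R y x - ∑ x ∈ V, mt R y x := by
    intro V
    rw [← sum_sub_distrib]
    exact sum_congr rfl (fun x _ => (zt_sub_mt R y x).symm)
  obtain ⟨c, hcd⟩ : ∃ c : ℝ, c = ((κ : ℝ) + 1) / N := ⟨_, rfl⟩
  have hc0 : 0 < c := by rw [hcd]; positivity
  have hcN : c * N = (κ : ℝ) + 1 := by rw [hcd]; field_simp
  rw [← hcd] at hR3 ⊢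
  have hms : ∑ x ∈ Q \ S, mt R y x ≤ 27 / 25 := by
    refine le_trans ?_ hR1
    rw [← mt_sum]
    exact sum_le_sum_of_subset_of_nonneg sdiff_subset (fun x hx _ => hm x hx)
  have hms0 : 0 ≤ ∑ x ∈ Q \ S, mt R y x := sum_nonneg hm'
  have hzs : -4 ≤ ∑ x ∈ Q \ S, zt R y x := by
    have h1 := hsz (Q \ S)
    have h2 := sum_sdiff (f := y) hS.1
    linarith
  have hs2 : ∑ x ∈ Q \ S, zt R y x ^ 2 ≤ 68 / 5 * c := by
    refine le_trans ?_ hR3
    rw [← zt_sq hRQ]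
    apply sum_le_sum_of_subset_of_nonneg sdiff_subset
    intro x _ _
    positivity
  have hratio0 : 0 ≤ (κ : ℝ) / (Q \ S).card := by positivity
  have hratio : (κ : ℝ) / (Q \ S).card ≤ 1 / 17 := by
    rw [div_le_div_iff₀ hP0 (by norm_num), hcr]
    linarith
  have hratio2 : (κ : ℝ) / (Q \ S).card ≤ 18 / 17 * c := by
    rw [div_le_iff₀ hP0, hcr]
    have h1 : 17 / 18 * (N : ℝ) ≤ N - (κ + 1) := by linarith
    have h2 : 18 / 17 * c * (17 / 18 * (N : ℝ)) ≤ 18 / 17 * c * (N - (κ + 1)) :=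
      mul_le_mul_of_nonneg_left h1 (by positivity)
    linarith
  have hk4 : κ + 4 ≤ (Q \ S).card := by rw [hc]; omega
  obtain ⟨C, hC⟩ : ∃ C : ℝ, C = ((N - (κ + 1)).choose κ : ℝ) := ⟨_, rfl⟩
  have hC0 : 0 ≤ C := by rw [hC]; exact Nat.cast_nonneg _
  -- the cut off part
  have h1 := markov (Q \ S) (mt R y) κ hk4 hm' (θ := 7 / 20)
  rw [show ((Q \ S).card.choose κ : ℝ) = C by rw [hc, hC]] at h1
  have h1' : C * ((κ : ℝ) / (Q \ S).card * ∑ x ∈ Q \ S, mt R y x)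
      ≤ C * (18 / 17 * c * (27 / 25)) :=
    mul_le_mul_of_nonneg_left (mul_le_mul hratio2 hms hms0 (by positivity)) hC0
  -- the truncated part
  have h2 := cheb_dn (Q \ S) (zt R y) κ hk4 (L := 207 / 500) (θ := -(13 / 20)) (by norm_num) (by
    have h3 : (κ : ℝ) / (Q \ S).card * (-4) ≤ (κ : ℝ) / (Q \ S).card * ∑ x ∈ Q \ S, zt R y x :=
      mul_le_mul_of_nonneg_left hzs hratio0
    linarith)
  rw [show ((Q \ S).card.choose κ : ℝ) = C by rw [hc, hC]] at h2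
  have h2' : C * ((κ : ℝ) / (Q \ S).card * ∑ x ∈ Q \ S, zt R y x ^ 2)
      ≤ C * (1 / 17 * (68 / 5 * c)) :=
    mul_le_mul_of_nonneg_left
      (mul_le_mul hratio hs2 (sum_nonneg (fun x _ => sq_nonneg _)) (by norm_num)) hC0
  have h3 : (((powersetCard κ (Q \ S)).filter (fun W => ∑ x ∈ W, y x ≤ -1)).card : ℝ)
      ≤ (((powersetCard κ (Q \ S)).filter (fun W => 7 / 20 ≤ ∑ x ∈ W, mt R y x)).card : ℝ)
        + (((powersetCard κ (Q \ S)).filter (fun W => ∑ x ∈ W, zt R y x ≤ -(13 / 20))).card : ℝ) := by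
    have h4 : (powersetCard κ (Q \ S)).filter (fun W => ∑ x ∈ W, y x ≤ -1)
        ⊆ (powersetCard κ (Q \ S)).filter (fun W => 7 / 20 ≤ ∑ x ∈ W, mt R y x)
          ∪ (powersetCard κ (Q \ S)).filter (fun W => ∑ x ∈ W, zt R y x ≤ -(13 / 20)) := by
      intro W hW
      rw [mem_filter] at hW
      rw [mem_union, mem_filter, mem_filter]
      rcases le_or_gt (7 / 20) (∑ x ∈ W, mt R y x) with h | h
      · exact Or.inl ⟨hW.1, h⟩
      · right
        refine ⟨hW.1, ?_⟩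
        have := hsz W
        linarith [hW.2]
    have h5 := (card_le_card h4).trans (card_union_le _ _)
    exact_mod_cast h5
  have h4 : 0 ≤ c * C := by positivity
  rw [← hC]
  nlinarith

/-- a set of large total avoiding the cut off part -/
theorem third {κ N : ℕ} (hN1 : 18 * (κ + 1) ≤ N) (Q R : Finset ι) (y : ι → ℝ)
    (hRQ : R ⊆ Q) (hN : Q.card = N) (hs : -1 ≤ ∑ x ∈ Q, y x) (hR : ∀ x ∈ Q \ R, y x ≤ 0)
    (hR3 : ∑ x ∈ R, y x ^ 2 ≤ 68 / 5 * (((κ : ℝ) + 1) / N))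
    (hR4 : 3 * (κ + 1) * (Q \ R).card ≤ N)
    (W : Finset ι) (hW : W ∈ powersetCard κ Q) (hW1 : ∑ x ∈ W, y x ≤ -5) :
    1 / 3 * ((N - κ).choose (κ + 1) : ℝ) ≤ KR5.pos (κ + 1) y (Q \ W) := by
  have hNr : 18 * ((κ : ℝ) + 1) ≤ N := by exact_mod_cast hN1
  have hκ : (0 : ℝ) ≤ κ := Nat.cast_nonneg κ
  have hN0 : (0 : ℝ) < N := by linarith
  rw [mem_powersetCard] at hW
  have hc : (Q \ W).card = N - κ := by rw [card_sdiff_of_subset hW.1, hN, hW.2]
  obtain ⟨P, hP⟩ : ∃ P, P = R \ W := ⟨_, rfl⟩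
  have hPsub : P ⊆ Q \ W := by rw [hP]; exact sdiff_subset_sdiff hRQ (Subset.refl _)
  have hPR : P ⊆ R := by rw [hP]; exact sdiff_subset
  have hcut : ((Q \ W) \ P).card ≤ (Q \ R).card := by
    apply card_le_card
    intro x hx
    rw [mem_sdiff, mem_sdiff, hP, mem_sdiff] at hx
    rw [mem_sdiff]
    refine ⟨hx.1.1, fun h => hx.2 ⟨h, hx.1.2⟩⟩
  have hneg : ∀ x ∈ (Q \ W) \ P, y x ≤ 0 := by
    intro x hx
    apply hR
    rw [mem_sdiff, mem_sdiff, hP, mem_sdiff] at hx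
    rw [mem_sdiff]
    refine ⟨hx.1.1, fun h => hx.2 ⟨h, hx.1.2⟩⟩
  obtain ⟨s, hsd⟩ : ∃ s, s = ((Q \ W) \ P).card := ⟨_, rfl⟩
  have hPc : P.card + s = N - κ := by
    have h1 := card_sdiff_of_subset hPsub
    have h2 := card_le_card hPsub
    rw [← hsd] at h1
    omega
  have hs3 : 3 * (κ + 1) * s ≤ N := by
    refine le_trans ?_ hR4
    exact Nat.mul_le_mul_left _ (by rw [hsd]; exact hcut)
  have h3s : 3 * s ≤ 3 * (κ + 1) * s := by nlinarith
  have hPk : κ + 1 + 4 ≤ P.card := by omega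
  have hPpos : (0 : ℝ) < P.card := by
    have : 0 < P.card := by omega
    exact_mod_cast this
  -- the total
  have hPsum : 4 ≤ ∑ x ∈ P, y x := by
    have h1 := sum_sdiff (f := y) hW.1
    have h2 := sum_sdiff (f := y) hPsub
    have h3 : ∑ x ∈ (Q \ W) \ P, y x ≤ 0 := sum_nonpos hneg
    linarith
  obtain ⟨k, hk⟩ : ∃ k : ℝ, k = ((κ + 1 : ℕ) : ℝ) := ⟨_, rfl⟩
  have hk' : k = (κ : ℝ) + 1 := by rw [hk]; push_cast; ring
  have hk0 : 0 < k := by rw [hk']; positivity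
  obtain ⟨μ, hμ⟩ : ∃ μ, μ = (∑ x ∈ P, y x) / P.card := ⟨_, rfl⟩
  have hμ0 : 0 < μ := by rw [hμ]; exact div_pos (by linarith) hPpos
  have hcen : ∑ x ∈ P, (y x - μ) = 0 := by
    rw [hμ]
    exact centre_sum P y (by omega)
  have hmean := sv_mean (fun x => y x - μ) (κ + 1) P hPk hcen
  obtain ⟨V, hV⟩ : ∃ V, V = vr (fun x => y x - μ) (κ + 1) P := ⟨_, rfl⟩
  have hV0 : 0 ≤ V := by rw [hV]; exact vr_nonneg _ _ _ hPk
  rw [← hV] at hmean
  have ht : 0 < k * μ := by positivity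
  have hcant := cant hmean ht hV0
  -- the variance
  have hP4 : (4 : ℝ) < P.card := by
    have : ((κ + 1 + 4 : ℕ) : ℝ) ≤ P.card := by exact_mod_cast hPk
    push_cast at this
    linarith
  have hkP : k ≤ P.card := by
    have : ((κ + 1 : ℕ) : ℝ) ≤ P.card := by
      have : κ + 1 ≤ P.card := by omega
      exact_mod_cast this
    rw [hk]
    exact this
  have hPN : (P.card : ℝ) ≤ N := by
    have : P.card ≤ N := by omega
    exact_mod_cast this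
  have hsq := sq_centre P y (by omega) hμ
  obtain ⟨A, hA⟩ : ∃ A, A = ∑ x ∈ P, (y x - μ) ^ 2 := ⟨_, rfl⟩
  have hA0 : 0 ≤ A := by rw [hA]; exact sum_nonneg (fun x _ => sq_nonneg _)
  have hAle : A ≤ 68 / 5 * (k / N) := by
    have h1 : ∑ x ∈ P, y x ^ 2 ≤ ∑ x ∈ R, y x ^ 2 :=
      sum_le_sum_of_subset_of_nonneg hPR (fun x _ _ => sq_nonneg _)
    have h2 : 0 ≤ (P.card : ℝ) * μ ^ 2 := by positivity
    rw [hk']
    rw [← hA] at hsq
    linarith
  have hVA : V = (r1 k P.card - r2 k P.card) * A := by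
    rw [hV, hA, hk]
    rfl
  rw [coef_V _ _ hP4] at hVA
  have hcoef : k * (P.card - k) / (P.card * (P.card - 1)) ≤ k / P.card := by
    rw [div_le_div_iff₀ (mul_pos hPpos (by linarith)) hPpos]
    have h1 : (P.card : ℝ) - k ≤ P.card - 1 := by rw [hk']; linarith
    calc k * (P.card - k) * P.card = (k * P.card) * (P.card - k) := by ring
      _ ≤ (k * P.card) * (P.card - 1) := mul_le_mul_of_nonneg_left h1 (by positivity)
      _ = _ := by ring
  have hVle : V ≤ k / P.card * (68 / 5 * (k / N)) := by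
    rw [hVA]
    exact mul_le_mul hcoef hAle hA0 (by positivity)
  have hV85 : V ≤ 17 / 20 * (k * μ) ^ 2 := by
    refine hVle.trans ?_
    have h1 : (k * μ) ^ 2 = (k / P.card) ^ 2 * (∑ x ∈ P, y x) ^ 2 := by
      rw [hμ]
      ring
    rw [h1]
    have h2 : (16 : ℝ) ≤ (∑ x ∈ P, y x) ^ 2 := by nlinarith
    have h3 : k / N ≤ k / P.card := div_le_div_of_nonneg_left hk0.le hPpos hPN
    have h4 : 0 < k / P.card := by positivity
    calc k / P.card * (68 / 5 * (k / N)) ≤ k / P.card * (68 / 5 * (k / P.card)) :=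
          mul_le_mul_of_nonneg_left (by linarith) h4.le
      _ = 17 / 20 * ((k / P.card) ^ 2 * 16) := by ring
      _ ≤ _ := by
          apply mul_le_mul_of_nonneg_left _ (by norm_num)
          exact mul_le_mul_of_nonneg_left h2 (sq_nonneg _)
  obtain ⟨p, hp⟩ : ∃ p, p = sv (fun x => y x - μ) (κ + 1) P (fun s => ind (k * μ) s) := ⟨_, rfl⟩
  rw [← hp] at hcant
  have hp0 : 0 ≤ p := by
    rw [hp]
    apply sv_nonneg
    intro s
    unfold ind
    split_ifs <;> norm_num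
  have hp1 : 20 / 37 ≤ p := by
    have h1 : p * ((k * μ) ^ 2 + V) ≤ p * ((k * μ) ^ 2 + 17 / 20 * (k * μ) ^ 2) :=
      mul_le_mul_of_nonneg_left (by linarith) hp0
    have h2 : 0 < (k * μ) ^ 2 := by positivity
    nlinarith
  -- back to counting
  have hpos : p * (P.card.choose (κ + 1) : ℝ) = KR5.pos (κ + 1) y P := by
    have h1 := sv_eq (fun x => y x - μ) (κ + 1) P (fun s => ind (k * μ) s) (by omega)
    rw [← hp] at h1
    rw [h1]
    unfold KR5.pos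
    rw [card_filter]
    push_cast
    apply sum_congr rfl
    intro V hV
    rw [mem_powersetCard] at hV
    unfold ind
    rw [sum_sub_distrib, sum_const, nsmul_eq_mul, hV.2, ← hk]
    have : (-(k * μ) < ∑ x ∈ V, y x - k * μ) ↔ 0 < ∑ x ∈ V, y x := by
      constructor <;> intro h <;> linarith
    simp only [this]
  have hav : 11 / 17 * ((N - κ).choose (κ + 1) : ℝ) ≤ (P.card.choose (κ + 1) : ℝ) := by
    have h1 := choose_avoid (N - κ) (κ + 1) (by omega) s (by omega)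
    rw [show N - κ - s = P.card by omega] at h1
    have hNκ : ((N - κ : ℕ) : ℝ) = N - κ := by rw [Nat.cast_sub (by omega)]
    have h2 : ((κ + 1 : ℕ) : ℝ) * s / ((N - κ : ℕ) : ℝ) ≤ 6 / 17 := by
      rw [hNκ, div_le_div_iff₀ (by linarith) (by norm_num)]
      have h3 : 3 * ((κ : ℝ) + 1) * s ≤ N := by exact_mod_cast hs3
      push_cast
      linarith
    have h3 : ((N - κ).choose (κ + 1) : ℝ) * (11 / 17)
        ≤ ((N - κ).choose (κ + 1) : ℝ) * (1 - ((κ + 1 : ℕ) : ℝ) * s / ((N - κ : ℕ) : ℝ)) :=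
      mul_le_mul_of_nonneg_left (by linarith) (Nat.cast_nonneg _)
    linarith
  have hmono : (KR5.pos (κ + 1) y P : ℝ) ≤ KR5.pos (κ + 1) y (Q \ W) := by
    exact_mod_cast pos_mono (κ + 1) y hPsub
  refine le_trans ?_ hmono
  rw [← hpos]
  have hC : (0 : ℝ) ≤ ((N - κ).choose (κ + 1) : ℝ) := Nat.cast_nonneg _
  have h1 : 20 / 37 * (11 / 17 * ((N - κ).choose (κ + 1) : ℝ)) ≤ p * (P.card.choose (κ + 1) : ℝ) :=
    mul_le_mul hp1 hav (by positivity) hp0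
  linarith

end

end Pool.Agent.KR6
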