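import Pool.Agent.KR6.Small
import Pool.Agent.KR6.Pairs

/-!
# The key inequality with the constant `18`
-/

namespace Pool.Agent.KR6

open Finset AK Pool.Agent.KR5

section
variable {ι : Type*} [DecidableEq ι]

theorem part_far {κ N : ℕ} (hN1 : 18 * (κ + 1) ≤ N) (Q R : Finset ι) (y : ι → ℝ)
    (hRQ : R ⊆ Q) (hN : Q.card = N) (hs : -1 ≤ ∑ x ∈ Q, y x) (hR : ∀ x ∈ Q \ R, y x ≤ 0)
    (hR3 : ∑ x ∈ R, y x ^ 2 ≤ 68 / 5 * (((κ : ℝ) + 1) / N))
    (hR4 : 3 * (κ + 1) * (Q \ R).card ≤ N) :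
    1 / 3 * ((N - κ).choose (κ + 1) : ℝ)
        * (((powersetCard κ Q).filter (fun W => ∑ x ∈ W, y x ≤ -5)).card : ℝ)
      ≤ ((N - (κ + 1)).choose κ : ℝ) * KR5.pos (κ + 1) y Q := by
  unfold KR5.pos
  apply pair_count
  · intro W hW hA
    exact third hN1 Q R y hRQ hN hs hR hR3 hR4 W hW hA
  · intro S hS _
    rw [mem_powersetCard] at hS
    have hc : (Q \ S).card = N - (κ + 1) := by rw [card_sdiff_of_subset hS.1, hN, hS.2]
    have h1 := card_filter_le (powersetCard κ (Q \ S)) (fun W => ∑ x ∈ W, y x ≤ -5)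
    rw [card_powersetCard, hc] at h1
    exact_mod_cast h1

theorem part_near {κ N : ℕ} (hκ : 1 ≤ κ) (hN1 : 18 * (κ + 1) ≤ N) (Q R : Finset ι) (y : ι → ℝ)
    (hRQ : R ⊆ Q) (hN : Q.card = N) (hs : -1 < ∑ x ∈ Q, y x) (hR : ∀ x ∈ Q \ R, y x ≤ 0)
    (hR1 : -∑ x ∈ Q \ R, y x ≤ 27 / 25) (hR2 : ∑ x ∈ R, y x ≤ 2 / 25)
    (hR3 : ∑ x ∈ R, y x ^ 2 ≤ 68 / 5 * (((κ : ℝ) + 1) / N)) :
    153 / 200 * ((N - κ).choose (κ + 1) : ℝ) * (((powersetCard κ Q).filter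
        (fun W => -5 < ∑ x ∈ W, y x ∧ ∑ x ∈ W, y x ≤ -1)).card : ℝ)
      ≤ 8 * ((N - (κ + 1)).choose κ : ℝ) * KR5.pos (κ + 1) y Q := by
  have hNr : 18 * ((κ : ℝ) + 1) ≤ N := by exact_mod_cast hN1
  have hκ0 : (0 : ℝ) ≤ κ := Nat.cast_nonneg κ
  have hN0 : (0 : ℝ) < N := by linarith
  have hc0 : 0 < ((κ : ℝ) + 1) / N := by positivity
  have h := pair_count Q κ (κ + 1) (fun W => -5 < ∑ x ∈ W, y x ∧ ∑ x ∈ W, y x ≤ -1)
    (fun S => 0 < ∑ x ∈ S, y x ∧ ∑ x ∈ S, y x ≤ 3)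
    (a := 153 / 200 * (((κ : ℝ) + 1) / N) * ((N - κ).choose (κ + 1) : ℝ))
    (b := 8 * (((κ : ℝ) + 1) / N) * ((N - (κ + 1)).choose κ : ℝ)) ?_ ?_
  · have h1 : (((powersetCard (κ + 1) Q).filter
        (fun S => 0 < ∑ x ∈ S, y x ∧ ∑ x ∈ S, y x ≤ 3)).card : ℝ) ≤ KR5.pos (κ + 1) y Q := by
      unfold KR5.pos
      have : ((powersetCard (κ + 1) Q).filter
          (fun S => 0 < ∑ x ∈ S, y x ∧ ∑ x ∈ S, y x ≤ 3)).card
          ≤ ((powersetCard (κ + 1) Q).filter (fun S => 0 < ∑ x ∈ S, y x)).card := by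
        apply card_le_card
        intro V hV
        rw [mem_filter] at hV ⊢
        exact ⟨hV.1, hV.2.1⟩
      exact_mod_cast this
    have h2 := h.trans (mul_le_mul_of_nonneg_left h1 (by positivity))
    have h3 : (((κ : ℝ) + 1) / N) * (153 / 200 * ((N - κ).choose (κ + 1) : ℝ)
        * (((powersetCard κ Q).filter
          (fun W => -5 < ∑ x ∈ W, y x ∧ ∑ x ∈ W, y x ≤ -1)).card : ℝ))
        ≤ (((κ : ℝ) + 1) / N) * (8 * ((N - (κ + 1)).choose κ : ℝ) * KR5.pos (κ + 1) y Q) := by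
      calc _ = 153 / 200 * (((κ : ℝ) + 1) / N) * ((N - κ).choose (κ + 1) : ℝ)
          * (((powersetCard κ Q).filter
            (fun W => -5 < ∑ x ∈ W, y x ∧ ∑ x ∈ W, y x ≤ -1)).card : ℝ) := by ring
        _ ≤ _ := h2
        _ = _ := by ring
    exact le_of_mul_le_mul_left h3 hc0
  · intro W hW hA
    have h1 := near_a hκ hN1 Q y hN hs W hW hA.2
    have h2 := near_b hN1 Q R y hRQ hN hR hR2 hR3 W hW hA.1.le
    unfold KR5.pos at h1
    have h3 : ((powersetCard (κ + 1) (Q \ W)).filter (fun S => 0 < ∑ x ∈ S, y x)).card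
        ≤ ((powersetCard (κ + 1) (Q \ W)).filter
            (fun S => 0 < ∑ x ∈ S, y x ∧ ∑ x ∈ S, y x ≤ 3)).card
          + ((powersetCard (κ + 1) (Q \ W)).filter (fun S => 3 < ∑ x ∈ S, y x)).card := by
      refine le_trans (card_le_card ?_) (card_union_le _ _)
      intro V hV
      rw [mem_filter] at hV
      rw [mem_union, mem_filter, mem_filter]
      rcases le_or_gt (∑ x ∈ V, y x) 3 with h | h
      · exact Or.inl ⟨hV.1, hV.2, h⟩
      · exact Or.inr ⟨hV.1, h⟩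
    have h4 : (((powersetCard (κ + 1) (Q \ W)).filter (fun S => 0 < ∑ x ∈ S, y x)).card : ℝ)
        ≤ (((powersetCard (κ + 1) (Q \ W)).filter
            (fun S => 0 < ∑ x ∈ S, y x ∧ ∑ x ∈ S, y x ≤ 3)).card : ℝ)
          + (((powersetCard (κ + 1) (Q \ W)).filter (fun S => 3 < ∑ x ∈ S, y x)).card : ℝ) := by
      exact_mod_cast h3
    linarith
  · intro S hS hB
    have h1 := near_c hN1 Q R y hRQ hN hs.le hR hR1 hR3 S hS hB.2
    refine le_trans ?_ h1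
    have : ((powersetCard κ (Q \ S)).filter
        (fun W => -5 < ∑ x ∈ W, y x ∧ ∑ x ∈ W, y x ≤ -1)).card
        ≤ ((powersetCard κ (Q \ S)).filter (fun W => ∑ x ∈ W, y x ≤ -1)).card := by
      apply card_le_card
      intro V hV
      rw [mem_filter] at hV ⊢
      exact ⟨hV.1, hV.2.2⟩
    exact_mod_cast this

/-- few positive sets -/
theorem key_few {κ N : ℕ} (hκ : 1 ≤ κ) (hN1 : 18 * (κ + 1) ≤ N) (Q : Finset ι) (y : ι → ℝ)
    (hy : ∀ i ∈ Q, y i ≤ 1) (hN : Q.card = N) (hs : -1 < ∑ x ∈ Q, y x)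
    (hb : (KR5.pos (κ + 1) y Q : ℝ) ≤ 1 / 9 * ((N - 1).choose κ : ℝ)) :
    (low κ y Q : ℝ) * ((N - κ).choose (κ + 1) : ℝ)
      ≤ 14 * (KR5.pos (κ + 1) y Q * ((N - (κ + 1)).choose κ : ℝ)) := by
  have hNr : 18 * ((κ : ℝ) + 1) ≤ N := by exact_mod_cast hN1
  have hκ0 : (0 : ℝ) ≤ κ := Nat.cast_nonneg κ
  have hN0 : (0 : ℝ) < N := by linarith
  have hsm := all_small hκ hN1 Q y hy hN hs.le hb
  have hb2 : (KR5.pos (κ + 1) y Q : ℝ) ≤ 1 / 162 * (N.choose (κ + 1) : ℝ) := by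
    have h2 := choose_rel N κ (by omega)
    have hC : (0 : ℝ) ≤ ((N - 1).choose κ : ℝ) := Nat.cast_nonneg _
    have h3 : ((N - 1).choose κ : ℝ) * (18 * ((κ : ℝ) + 1)) ≤ ((N - 1).choose κ : ℝ) * N :=
      mul_le_mul_of_nonneg_left hNr hC
    rw [h2] at h3
    have h4 : (18 * ((N - 1).choose κ : ℝ)) * ((κ : ℝ) + 1)
        ≤ (N.choose (κ + 1) : ℝ) * ((κ : ℝ) + 1) := by linarith
    have h5 := le_of_mul_le_mul_right h4 (by positivity)
    linarith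
  obtain ⟨R, hRQ, hR, hR1, hR2, hR3, hR4⟩ := shape hκ hN1 Q y hN hs.le
    (fun x hx => (hsm x hx).le) hb2
  have hfar := part_far hN1 Q R y hRQ hN hs.le hR hR3 hR4
  have hnear := part_near hκ hN1 Q R y hRQ hN hs hR hR1 hR2 hR3
  have hsplit : (low κ y Q : ℝ)
      ≤ (((powersetCard κ Q).filter (fun W => ∑ x ∈ W, y x ≤ -5)).card : ℝ)
        + (((powersetCard κ Q).filter
          (fun W => -5 < ∑ x ∈ W, y x ∧ ∑ x ∈ W, y x ≤ -1)).card : ℝ) := by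
    unfold low
    have : ((powersetCard κ Q).filter (fun W => ∑ x ∈ W, y x ≤ -1)).card
        ≤ ((powersetCard κ Q).filter (fun W => ∑ x ∈ W, y x ≤ -5)).card
          + ((powersetCard κ Q).filter
            (fun W => -5 < ∑ x ∈ W, y x ∧ ∑ x ∈ W, y x ≤ -1)).card := by
      refine le_trans (card_le_card ?_) (card_union_le _ _)
      intro V hV
      rw [mem_filter] at hV
      rw [mem_union, mem_filter, mem_filter]
      rcases le_or_gt (∑ x ∈ V, y x) (-5) with h | h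
      · exact Or.inl ⟨hV.1, h⟩
      · exact Or.inr ⟨hV.1, h, hV.2⟩
    exact_mod_cast this
  obtain ⟨A, hA⟩ : ∃ A : ℝ, A = (((powersetCard κ Q).filter
    (fun W => ∑ x ∈ W, y x ≤ -5)).card : ℝ) := ⟨_, rfl⟩
  obtain ⟨B, hB⟩ : ∃ B : ℝ, B = (((powersetCard κ Q).filter
    (fun W => -5 < ∑ x ∈ W, y x ∧ ∑ x ∈ W, y x ≤ -1)).card : ℝ) := ⟨_, rfl⟩
  rw [← hA] at hfar hsplit
  rw [← hB] at hnear hsplit
  have hC : (0 : ℝ) ≤ ((N - κ).choose (κ + 1) : ℝ) := Nat.cast_nonneg _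
  have hX : 0 ≤ (KR5.pos (κ + 1) y Q : ℝ) * ((N - (κ + 1)).choose κ : ℝ) := by positivity
  have h1 : (low κ y Q : ℝ) * ((N - κ).choose (κ + 1) : ℝ)
      ≤ (A + B) * ((N - κ).choose (κ + 1) : ℝ) := mul_le_mul_of_nonneg_right hsplit hC
  nlinarith

/-- the key inequality -/
theorem key_lin {κ N : ℕ} (hN1 : 18 * (κ + 1) ≤ N) (Q : Finset ι) (y : ι → ℝ)
    (hy : ∀ i ∈ Q, y i ≤ 1) (hN : Q.card = N) (hs : -1 < ∑ x ∈ Q, y x) :
    (low κ y Q : ℝ) * (N.choose (κ + 1) : ℝ)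
      ≤ 18 * (KR5.pos (κ + 1) y Q * (N.choose κ : ℝ)) := by
  have hNr : 18 * ((κ : ℝ) + 1) ≤ N := by exact_mod_cast hN1
  have hκ : (0 : ℝ) ≤ κ := Nat.cast_nonneg κ
  have hN0 : (0 : ℝ) < N := by linarith
  have hC1 : (0 : ℝ) < (N.choose κ : ℝ) := by exact_mod_cast Nat.choose_pos (by omega)
  have hC2 : (0 : ℝ) < (N.choose (κ + 1) : ℝ) := by exact_mod_cast Nat.choose_pos (by omega)
  have hp0 : (0 : ℝ) ≤ KR5.pos (κ + 1) y Q := Nat.cast_nonneg _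
  rcases Nat.eq_zero_or_pos (low κ y Q) with hz | hL
  · rw [hz, Nat.cast_zero, zero_mul]
    positivity
  rcases Nat.eq_zero_or_pos κ with h0 | hκ1
  · exfalso
    subst h0
    unfold low at hL
    obtain ⟨W, hW⟩ := card_pos.1 hL
    rw [mem_filter, powersetCard_zero, mem_singleton] at hW
    have := hW.2
    rw [hW.1, sum_empty] at this
    linarith
  -- the fractions
  obtain ⟨a, ha⟩ : ∃ a : ℝ, a = (low κ y Q : ℝ) / (N.choose κ : ℝ) := ⟨_, rfl⟩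
  obtain ⟨b, hb⟩ : ∃ b : ℝ, b = (KR5.pos (κ + 1) y Q : ℝ) / (N.choose (κ + 1) : ℝ) := ⟨_, rfl⟩
  have ha' : (low κ y Q : ℝ) = a * (N.choose κ : ℝ) := by rw [ha]; field_simp
  have hb' : (KR5.pos (κ + 1) y Q : ℝ) = b * (N.choose (κ + 1) : ℝ) := by rw [hb]; field_simp
  have ha1 : a ≤ 1 := by
    rw [ha, div_le_one hC1]
    have h1 := card_filter_le (powersetCard κ Q) (fun W => ∑ x ∈ W, y x ≤ -1)
    rw [card_powersetCard, hN] at h1
    unfold low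
    exact_mod_cast h1
  have hfin : a ≤ 18 * b → (low κ y Q : ℝ) * (N.choose (κ + 1) : ℝ)
      ≤ 18 * (KR5.pos (κ + 1) y Q * (N.choose κ : ℝ)) := by
    intro h
    rw [ha', hb']
    have h1 : a * ((N.choose κ : ℝ) * (N.choose (κ + 1) : ℝ))
        ≤ 18 * b * ((N.choose κ : ℝ) * (N.choose (κ + 1) : ℝ)) :=
      mul_le_mul_of_nonneg_right h (by positivity)
    linarith
  rcases le_or_gt (2 * (((κ : ℝ) + 1) / N)) a with hbig | hsmall
  · exact hfin (case_big hκ1 hN1 Q y hy hN hs.le ha' ha1 hb' hbig)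
  rcases le_or_gt a (18 * b) with h | hab
  · exact hfin h
  -- few positive sets
  have hfew : (KR5.pos (κ + 1) y Q : ℝ) ≤ 1 / 9 * ((N - 1).choose κ : ℝ) := by
    have h2 := choose_rel N κ (by omega)
    have hk0 : (0 : ℝ) < (κ : ℝ) + 1 := by positivity
    have h3 : b * N ≤ 1 / 9 * ((κ : ℝ) + 1) := by
      have h4 : 18 * b < 2 * (((κ : ℝ) + 1) / N) := by linarith
      rw [mul_div_assoc', lt_div_iff₀ hN0] at h4
      linarith
    have h5 : (KR5.pos (κ + 1) y Q : ℝ) * N ≤ 1 / 9 * ((N - 1).choose κ : ℝ) * N := by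
      rw [hb']
      calc b * (N.choose (κ + 1) : ℝ) * N = (b * N) * (N.choose (κ + 1) : ℝ) := by ring
        _ ≤ (1 / 9 * ((κ : ℝ) + 1)) * (N.choose (κ + 1) : ℝ) :=
            mul_le_mul_of_nonneg_right h3 hC2.le
        _ = 1 / 9 * ((N.choose (κ + 1) : ℝ) * ((κ : ℝ) + 1)) := by ring
        _ = _ := by rw [← h2]; ring
    exact le_of_mul_le_mul_right h5 hN0
  have h1 := key_few hκ1 hN1 Q y hy hN hs hfew
  have h2 : (N.choose κ : ℝ) * ((N - κ).choose (κ + 1) : ℝ)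
      = (N.choose (κ + 1) : ℝ) * ((N - (κ + 1)).choose κ : ℝ) := by
    have e1 := Nat.choose_mul (n := N) (k := κ + (κ + 1)) (s := κ) (by omega)
    have e2 := Nat.choose_mul (n := N) (k := κ + (κ + 1)) (s := κ + 1) (by omega)
    rw [show κ + (κ + 1) - κ = κ + 1 by omega] at e1
    rw [show κ + (κ + 1) - (κ + 1) = κ by omega] at e2
    have e3 : (κ + (κ + 1)).choose κ = (κ + (κ + 1)).choose (κ + 1) := by
      have := Nat.choose_symm_half κ
      rw [show κ + (κ + 1) = 2 * κ + 1 by ring]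
      exact this.symm
    rw [e3] at e1
    have e4 := e1.symm.trans e2
    exact_mod_cast e4
  have hC3 : (0 : ℝ) < ((N - (κ + 1)).choose κ : ℝ) := by
    exact_mod_cast Nat.choose_pos (by omega)
  have h3 : ((low κ y Q : ℝ) * (N.choose (κ + 1) : ℝ)) * ((N - (κ + 1)).choose κ : ℝ)
      ≤ (18 * (KR5.pos (κ + 1) y Q * (N.choose κ : ℝ))) * ((N - (κ + 1)).choose κ : ℝ) := by
    calc ((low κ y Q : ℝ) * (N.choose (κ + 1) : ℝ)) * ((N - (κ + 1)).choose κ : ℝ)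
        = ((low κ y Q : ℝ) * ((N - κ).choose (κ + 1) : ℝ)) * (N.choose κ : ℝ) := by
          rw [mul_assoc, ← h2]
          ring
      _ ≤ (14 * (KR5.pos (κ + 1) y Q * ((N - (κ + 1)).choose κ : ℝ))) * (N.choose κ : ℝ) :=
          mul_le_mul_of_nonneg_right h1 hC1.le
      _ ≤ (18 * (KR5.pos (κ + 1) y Q * ((N - (κ + 1)).choose κ : ℝ))) * (N.choose κ : ℝ) := by
          apply mul_le_mul_of_nonneg_right _ hC1.le
          have : 0 ≤ (KR5.pos (κ + 1) y Q : ℝ) * ((N - (κ + 1)).choose κ : ℝ) := by positivity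
          linarith
      _ = _ := by ring
  exact le_of_mul_le_mul_right h3 hC3

end

theorem key18 : Key 18 := by
  intro n κ N hN Q y hy hQ hs
  have := key_lin hN Q y hy hQ hs
  push_cast
  exact this

end Pool.Agent.KR6
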