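import Pool.Agent.KR6.Cons

/-!
# Few positive sets and small values: the structure
-/

namespace Pool.Agent.KR6

open Finset AK Pool.Agent.KR5

section
variable {ι : Type*} [DecidableEq ι]

theorem shape {κ N : ℕ} (hκ : 1 ≤ κ) (hN1 : 18 * (κ + 1) ≤ N) (Q : Finset ι) (y : ι → ℝ)
    (hN : Q.card = N) (hs : -1 ≤ ∑ x ∈ Q, y x)
    (hy : ∀ x ∈ Q, y x ≤ 5 / 2 * (((κ : ℝ) + 1) / N))
    (hb : (KR5.pos (κ + 1) y Q : ℝ) ≤ 1 / 162 * (N.choose (κ + 1) : ℝ)) :
    ∃ R ⊆ Q, (∀ x ∈ Q \ R, y x ≤ 0) ∧ -∑ x ∈ Q \ R, y x ≤ 27 / 25 ∧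
      ∑ x ∈ R, y x ≤ 2 / 25 ∧ ∑ x ∈ R, y x ^ 2 ≤ 68 / 5 * (((κ : ℝ) + 1) / N) ∧
      3 * (κ + 1) * (Q \ R).card ≤ N := by
  subst hN
  have hk2 : 2 ≤ κ + 1 := by omega
  have hM33 : 33 * (κ + 1) ≤ 2 * Q.card := by omega
  have hMr : 18 * ((κ : ℝ) + 1) ≤ Q.card := by exact_mod_cast hN1
  have hκr : (1 : ℝ) ≤ κ := by exact_mod_cast hκ
  have hM0 : (0 : ℝ) < Q.card := by linarith
  obtain ⟨c, hc⟩ : ∃ c : ℝ, c = ((κ : ℝ) + 1) / Q.card := ⟨_, rfl⟩
  have hc0 : 0 < c := by rw [hc]; positivity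
  have hcM : c * Q.card = (κ : ℝ) + 1 := by rw [hc]; field_simp
  have hc18 : c ≤ 1 / 18 := by
    rw [hc, div_le_div_iff₀ hM0 (by norm_num)]
    linarith
  rw [← hc] at hy ⊢
  have hζ0 : 0 < 5 / 2 * c := by positivity
  obtain ⟨R, r, β, μ, T⟩ := exists_trim (ζ := 5 / 2 * c) (τ := 1) (q := 1 / 108) Q y hk2 hM33 hy hs
    (by norm_num) (by linarith)
  obtain ⟨hkr, _, h56, hRM, _, h4, hR0', hR0⟩ := T.nums hk2 hM33
  obtain ⟨k, hk⟩ : ∃ k : ℝ, k = ((κ + 1 : ℕ) : ℝ) := ⟨_, rfl⟩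
  have hk' : k = (κ : ℝ) + 1 := by rw [hk]; push_cast; ring
  rw [← hk] at hkr
  have hk0 : 0 < k := by linarith
  obtain ⟨V, hV⟩ : ∃ V, V = vr (fun x => y x - μ) (κ + 1) R := ⟨_, rfl⟩
  have hV0 := T.vnn hk2 hM33
  rw [← hV] at hV0
  obtain ⟨e, he⟩ : ∃ e : ℝ, e = k / R.card := ⟨_, rfl⟩
  have he0 : 0 < e := by rw [he]; positivity
  have heR : e * R.card = k := by rw [he]; field_simp
  have hec : e ≤ 6 / 5 * c := by
    rw [he, div_le_iff₀ hR0]
    have h5 : c * (5 / 6 * Q.card) ≤ c * R.card := mul_le_mul_of_nonneg_left h56 hc0.le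
    linarith
  have hce : c ≤ e := by
    rw [hc, he, ← hk']
    exact div_le_div_of_nonneg_left hk0.le hR0 hRM
  have hα := T.kr (K := 18) (by norm_num) (by push_cast; linarith)
  have htl := T.t_low hk2 hM33 (α := 5 / 18) (by norm_num) (by
    have e : (1 / 3 - 1 / 18 : ℝ) = 5 / 18 := by norm_num
    rw [e] at hα
    exact hα)
  rw [← hk, ← he] at htl
  have hβ := T.beta
  obtain ⟨t, ht⟩ : ∃ t, t = k * μ := ⟨_, rfl⟩
  rw [← ht] at htl
  have hmain : V ≤ 101 / 10 * e ^ 2 ∧ t ≤ 2 / 25 * e ∧ -t ≤ e := by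
    rcases le_or_gt 0 μ with hμ | hμ
    · have h5 := T.t50 hk2 hM33 hζ0 hμ (by norm_num)
      have h6 := T.v_pos hk2 hM33 hζ0 hμ
      rw [← hV] at h6
      rw [← hk, ← ht] at h5
      have ht0 : 0 ≤ t := by rw [ht]; positivity
      have hμt : μ ≤ t / 2 := by rw [ht]; nlinarith
      have hB : max (5 / 2 * c) (β + μ) ≤ 393 / 100 * e ∧ t ≤ 2 / 25 * e := by
        rcases max_cases (5 / 2 * c) (β + μ) with ⟨h8, _⟩ | ⟨h8, _⟩
        · rw [h8] at h5 ⊢
          constructor <;> linarith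
        · rw [h8] at h5 ⊢
          constructor <;> linarith
      have hB0 : 0 ≤ max (5 / 2 * c) (β + μ) := le_trans hζ0.le (le_max_left _ _)
      have hB2 : (max (5 / 2 * c) (β + μ)) ^ 2 ≤ 16 * e ^ 2 := by
        calc (max (5 / 2 * c) (β + μ)) ^ 2 ≤ (393 / 100 * e) ^ 2 := pow_le_pow_left₀ hB0 hB.1 2
          _ ≤ 16 * e ^ 2 := by nlinarith
      have he2 : 0 ≤ e ^ 2 := sq_nonneg _
      refine ⟨by linarith, hB.2, by linarith⟩
    · have hg : 0 < 13 / 2 * e := by positivity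
      have h6 := T.v_neg hk2 hM33 hζ0 hμ.le (g := 13 / 2 * e) hg
      rw [← hV, ← hk, ← ht] at h6
      have ht0 : t ≤ 0 := by rw [ht]; nlinarith
      have htl2 : -t ≤ e := by linarith
      have hμ2 : -μ ≤ e / 2 := by
        have : k * (-μ) ≤ e := by
          have e : k * (-μ) = -t := by rw [ht]; ring
          rw [e]
          exact htl2
        nlinarith
      have hβ2 : β ≤ 18 / 5 * e := by linarith
      have hB : max (5 / 2 * c - μ) β ≤ 18 / 5 * e := by
        apply max_le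
        · linarith
        · linarith
      have hB0 : 0 ≤ max (5 / 2 * c - μ) β := le_trans (by linarith) (le_max_left _ _)
      have hB2 : (max (5 / 2 * c - μ) β) ^ 2 ≤ 13 * e ^ 2 := by
        calc (max (5 / 2 * c - μ) β) ^ 2 ≤ (18 / 5 * e) ^ 2 := pow_le_pow_left₀ hB0 hB 2
          _ ≤ 13 * e ^ 2 := by nlinarith
      have hdiv : 49 / 200 * (-t) / (13 / 2 * e) ≤ 49 / 1300 := by
        rw [div_le_iff₀ hg]
        linarith
      have hdiv0 : 0 ≤ 49 / 200 * (-t) / (13 / 2 * e) := by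
        apply div_nonneg _ hg.le
        linarith
      have h8 : (1 / 108 + 49 / 200 * (-t) / (13 / 2 * e))
          * (3 * V + (max (5 / 2 * c - μ) β) ^ 2)
          ≤ (1 / 108 + 49 / 1300) * (3 * V + 13 * e ^ 2) :=
        mul_le_mul (by linarith) (by linarith) (by positivity) (by norm_num)
      have ht2 : t ^ 2 ≤ e ^ 2 := by nlinarith
      have hte : 49 / 200 * (-t) * (13 / 2 * e) ≤ 49 / 200 * e * (13 / 2 * e) := by
        apply mul_le_mul_of_nonneg_right _ hg.le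
        linarith
      have he2 : 0 ≤ e ^ 2 := sq_nonneg _
      refine ⟨by nlinarith, by linarith, htl2⟩
  obtain ⟨hV1, ht1, ht2⟩ := hmain
  -- the sum
  have hμR : ∑ x ∈ R, y x = R.card * μ := by rw [T.mu]; field_simp
  have hsumR : ∑ x ∈ R, y x ≤ 2 / 25 := by
    have h1 : e * ∑ x ∈ R, y x ≤ e * (2 / 25) := by
      rw [hμR]
      calc e * (R.card * μ) = (e * R.card) * μ := by ring
        _ = t := by rw [heR, ht]
        _ ≤ _ := by linarith
    exact le_of_mul_le_mul_left h1 he0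
  have hcard : (Q \ R).card = r := by
    have h1 := card_sdiff_of_subset T.sub
    have h2 := T.card
    omega
  refine ⟨R, T.sub, T.off, ?_, hsumR, ?_, ?_⟩
  · have h1 := sum_sdiff (f := y) T.sub
    linarith
  · -- second moment
    have hsq := sq_centre R y hR0' T.mu
    obtain ⟨A, hA⟩ : ∃ A, A = ∑ x ∈ R, (y x - μ) ^ 2 := ⟨_, rfl⟩
    have hA0 : 0 ≤ A := by rw [hA]; exact sum_nonneg (fun x _ => sq_nonneg _)
    rw [hsq, ← hA]
    have hR4 : (4 : ℝ) < R.card := by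
      have : (k : ℝ) + 4 ≤ R.card := by rw [hk]; exact_mod_cast h4
      linarith
    have hVA : V = (r1 k R.card - r2 k R.card) * A := by
      rw [hV, hA, hk]
      rfl
    rw [coef_V _ _ hR4] at hVA
    have he15 : e ≤ 1 / 15 := by linarith
    have hcoef : 14 / 15 * e ≤ k * (R.card - k) / (R.card * (R.card - 1)) := by
      rw [le_div_iff₀ (mul_pos hR0 (by linarith))]
      have h1 : 14 / 15 * e * (R.card * (R.card - 1)) = 14 / 15 * k * (R.card - 1) := by
        rw [← heR]; ring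
      rw [h1]
      have h2 : k ≤ 1 / 15 * R.card := by
        rw [← heR]
        exact mul_le_mul_of_nonneg_right he15 hR0.le
      have h3 : 14 / 15 * (R.card - 1 : ℝ) ≤ R.card - k := by linarith
      calc 14 / 15 * k * (R.card - 1) = k * (14 / 15 * (R.card - 1 : ℝ)) := by ring
        _ ≤ _ := mul_le_mul_of_nonneg_left h3 hk0.le
    have h5 : 14 / 15 * e * A ≤ 101 / 10 * e ^ 2 := by
      refine le_trans ?_ hV1
      rw [hVA]
      exact mul_le_mul_of_nonneg_right hcoef hA0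
    have h6 : A ≤ 1083 / 100 * e := by
      have h7 : e * A ≤ e * (1083 / 100 * e) := by nlinarith
      exact le_of_mul_le_mul_left h7 he0
    have h7 : R.card * μ ^ 2 ≤ e / 2 := by
      have h8 : k * (R.card * μ ^ 2 * e) ≤ k * (e / 2 * e) := by
        have e1 : k * (R.card * μ ^ 2 * e) = t ^ 2 := by
          rw [ht]
          calc k * (R.card * μ ^ 2 * e) = k * μ ^ 2 * (e * R.card) := by ring
            _ = _ := by rw [heR]; ring
        rw [e1]
        have ht3 : t ^ 2 ≤ e ^ 2 := by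
          apply sq_le_sq'
          · linarith
          · linarith
        nlinarith
      have h9 := le_of_mul_le_mul_left h8 hk0
      exact le_of_mul_le_mul_right h9 he0
    linarith
  · rw [hcard]
    exact T.r1

end

end Pool.Agent.KR6
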