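import Pool.Agent.KR6.Core

/-!
# Few positive sets: trimming
-/

namespace Pool.Agent.KR6

open Finset AK Pool.Agent.KR5

theorem coef_le8 {j M : ℝ} (hj : 1 ≤ j) (hM : 4 < M) (h : 8 * j ≤ M) :
    r2 j M - 2 * r3 j M + r4 j M ≤ (r1 j M - r2 j M) ^ 2 := by
  rw [coef_W j M hM, coef_V j M hM, div_pow]
  have h1 : 0 < M * (M - 1) * (M - 2) * (M - 3) := by
    apply mul_pos (mul_pos (mul_pos (by linarith) (by linarith)) (by linarith)) (by linarith)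
  have h2 : 0 < (M * (M - 1)) ^ 2 := by
    apply pow_pos
    exact mul_pos (by linarith) (by linarith)
  rw [div_le_div_iff₀ h1 h2]
  have h3 : (j - 1) * (M - j - 1) * (M * (M - 1)) ≤ j * (M - j) * ((M - 2) * (M - 3)) := by
    have e : j * (M - j) * ((M - 2) * (M - 3)) - (j - 1) * (M - j - 1) * (M * (M - 1))
        = (M - 1) ^ 2 * M - (j * (M - j)) * (4 * M - 6) := by ring
    have h4 : j * (M - j) ≤ 7 / 64 * M ^ 2 := by nlinarith
    have h5 : (j * (M - j)) * (4 * M - 6) ≤ 7 / 64 * M ^ 2 * (4 * M - 6) :=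
      mul_le_mul_of_nonneg_right h4 (by linarith)
    have h6 : 7 / 64 * M ^ 2 * (4 * M - 6) ≤ (M - 1) ^ 2 * M := by nlinarith [sq_nonneg (M - 4)]
    linarith
  have h7 : 0 ≤ j * (M - j) * (M * (M - 1)) := by
    apply mul_nonneg (mul_nonneg (by linarith) (by linarith)) (mul_nonneg (by linarith) (by linarith))
  calc j * (j - 1) * (M - j) * (M - j - 1) * (M * (M - 1)) ^ 2
      = (j * (M - j) * (M * (M - 1))) * ((j - 1) * (M - j - 1) * (M * (M - 1))) := by ring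
    _ ≤ (j * (M - j) * (M * (M - 1))) * (j * (M - j) * ((M - 2) * (M - 3))) :=
        mul_le_mul_of_nonneg_left h3 h7
    _ = _ := by ring

section
variable {ι : Type*} [DecidableEq ι]

/-- the bound for the fourth moment -/
theorem fr_le8 (z : ι → ℝ) (j : ℕ) (P : Finset ι) (hj : 1 ≤ j) (hP : 8 * j ≤ P.card) (B : ℝ)
    (hB : ∀ x ∈ P, z x ^ 2 ≤ B ^ 2) : fr z j P ≤ 3 * vr z j P ^ 2 + B ^ 2 * vr z j P := by
  have hjr : (1 : ℝ) ≤ j := by exact_mod_cast hj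
  have hPr : 8 * (j : ℝ) ≤ P.card := by exact_mod_cast hP
  obtain ⟨M, hM⟩ : ∃ M : ℝ, M = P.card := ⟨_, rfl⟩
  rw [← hM] at hPr
  have hM4 : 4 < M := by linarith
  have hW := coef_le8 hjr hM4 hPr
  have hW0 : 0 ≤ r2 (j : ℝ) M - 2 * r3 (j : ℝ) M + r4 (j : ℝ) M := by
    rw [coef_W _ _ hM4]
    apply div_nonneg
    · apply mul_nonneg (mul_nonneg (mul_nonneg (by linarith) (by linarith)) (by linarith))
        (by linarith)
    · apply mul_nonneg (mul_nonneg (mul_nonneg (by linarith) (by linarith)) (by linarith))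
        (by linarith)
  have hV0 : 0 ≤ r1 (j : ℝ) M - r2 (j : ℝ) M := by
    rw [coef_V _ _ hM4]
    apply div_nonneg
    · exact mul_nonneg (by linarith) (by linarith)
    · exact mul_nonneg (by linarith) (by linarith)
  have hp4 : ∑ x ∈ P, z x ^ 4 ≤ B ^ 2 * ∑ x ∈ P, z x ^ 2 := by
    rw [mul_sum]
    apply sum_le_sum
    intro x hx
    have h1 := hB x hx
    have h2 := sq_nonneg (z x)
    calc z x ^ 4 = z x ^ 2 * z x ^ 2 := by ring
      _ ≤ B ^ 2 * z x ^ 2 := mul_le_mul_of_nonneg_right h1 h2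
  have hp4' : 0 ≤ ∑ x ∈ P, z x ^ 4 := sum_nonneg (fun x _ => by positivity)
  have hp2 : 0 ≤ ∑ x ∈ P, z x ^ 2 := sum_nonneg (fun x _ => by positivity)
  unfold fr vr
  rw [← hM]
  obtain ⟨p2, h2⟩ : ∃ p2, p2 = ∑ x ∈ P, z x ^ 2 := ⟨_, rfl⟩
  obtain ⟨p4, h4⟩ : ∃ p4, p4 = ∑ x ∈ P, z x ^ 4 := ⟨_, rfl⟩
  obtain ⟨p3, h3⟩ : ∃ p3, p3 = ∑ x ∈ P, z x ^ 3 := ⟨_, rfl⟩
  rw [← h2, ← h4] at hp4
  rw [← h2] at hp2
  rw [← h4] at hp4'
  rw [← h2, ← h3, ← h4]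
  obtain ⟨q1, hq1⟩ : ∃ q1, q1 = r1 (j : ℝ) M := ⟨_, rfl⟩
  obtain ⟨q2, hq2⟩ : ∃ q2, q2 = r2 (j : ℝ) M := ⟨_, rfl⟩
  obtain ⟨q3, hq3⟩ : ∃ q3, q3 = r3 (j : ℝ) M := ⟨_, rfl⟩
  obtain ⟨q4, hq4⟩ : ∃ q4, q4 = r4 (j : ℝ) M := ⟨_, rfl⟩
  rw [← hq1, ← hq2, ← hq3, ← hq4] at hW
  rw [← hq2, ← hq3, ← hq4] at hW0
  rw [← hq1, ← hq2] at hV0
  rw [← hq1, ← hq2, ← hq3, ← hq4]
  unfold m4
  have e : q1 * p4 + q2 * (4 * (0 * p3 - p4) + 3 * (p2 ^ 2 - p4))
      + 6 * q3 * (0 ^ 2 * p2 - 2 * 0 * p3 - p2 ^ 2 + 2 * p4)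
      + q4 * (0 ^ 4 - 6 * 0 ^ 2 * p2 + 8 * 0 * p3 + 3 * p2 ^ 2 - 6 * p4)
      = (q1 - q2) * p4 - 6 * ((q2 - 2 * q3 + q4) * p4) + 3 * ((q2 - 2 * q3 + q4) * p2 ^ 2) := by
    ring
  rw [e]
  have h5 : 0 ≤ (q2 - 2 * q3 + q4) * p4 := mul_nonneg hW0 hp4'
  have h6 : (q2 - 2 * q3 + q4) * p2 ^ 2 ≤ (q1 - q2) ^ 2 * p2 ^ 2 :=
    mul_le_mul_of_nonneg_right hW (sq_nonneg _)
  have h7 : (q1 - q2) * p4 ≤ (q1 - q2) * (B ^ 2 * p2) := mul_le_mul_of_nonneg_left hp4 hV0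
  have e2 : 3 * ((q1 - q2) * p2) ^ 2 + B ^ 2 * ((q1 - q2) * p2)
      = 3 * ((q1 - q2) ^ 2 * p2 ^ 2) + (q1 - q2) * (B ^ 2 * p2) := by ring
  rw [e2]
  linarith

/-- the trimmed population -/
structure Trim (P R : Finset ι) (y : ι → ℝ) (k r : ℕ) (ζ τ β μ q : ℝ) : Prop where
  sub : R ⊆ P
  card : R.card + r = P.card
  r1 : 3 * k * r ≤ P.card
  r2 : P.card < 3 * k * (r + 1)
  beta : 0 ≤ β
  mu : μ = (∑ x ∈ R, y x) / R.card
  off : ∀ x ∈ P \ R, y x ≤ 0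
  low : ∀ x ∈ R, -β ≤ y x
  up : ∀ x ∈ R, y x ≤ ζ
  sum : r * β - τ ≤ ∑ x ∈ R, y x
  prob : ∀ F : ℝ → ℝ, (∀ s, F s ≤ if 0 < s + k * μ then 1 else 0) →
    sv (fun x => y x - μ) k R F ≤ q

theorem exists_trim {k : ℕ} (P : Finset ι) (y : ι → ℝ) (hk : 2 ≤ k) (hM : 33 * k ≤ 2 * P.card)
    {ζ τ q : ℝ} (hy : ∀ x ∈ P, y x ≤ ζ) (hs : -τ ≤ ∑ x ∈ P, y x) (hq : q < 1)
    (hb : (KR5.pos k y P : ℝ) ≤ 2 / 3 * q * (P.card.choose k : ℝ)) :
    ∃ R r β μ, Trim P R y k r ζ τ β μ q := by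
  obtain ⟨M, hMd⟩ : ∃ M, M = P.card := ⟨_, rfl⟩
  rw [← hMd] at hM hb
  obtain ⟨r, hr⟩ : ∃ r, r = M / (3 * k) := ⟨_, rfl⟩
  have hr1 : 3 * k * r ≤ M := by rw [hr]; exact Nat.mul_div_le _ _
  have hr2 : M < 3 * k * (r + 1) := by rw [hr]; exact Nat.lt_mul_div_succ _ (by omega)
  have h6r : 6 * r ≤ 3 * k * r := Nat.mul_le_mul_right _ (by omega)
  have hrM : 6 * r ≤ M := by omega
  obtain ⟨R, hRP, hRc, hR⟩ := top_part P y r (by omega)
  rw [← hMd] at hRc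
  have hkr : (2 : ℝ) ≤ k := by exact_mod_cast hk
  have hMr : 33 * (k : ℝ) ≤ 2 * M := by exact_mod_cast hM
  have hM0 : (0 : ℝ) < M := by linarith
  have hM0' : 0 < M := by exact_mod_cast hM0
  have hr1r : 3 * (k : ℝ) * r ≤ M := by exact_mod_cast hr1
  have hRn : R.card = M - r := by omega
  have hkR : k ≤ R.card := by omega
  have hRpos : 0 < R.card := by omega
  have hav : 2 / 3 * (M.choose k : ℝ) ≤ (R.card.choose k : ℝ) := by
    have h1 := choose_avoid M k hM0' r (by omega)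
    rw [← hRn] at h1
    have h2 : (k : ℝ) * r / M ≤ 1 / 3 := by
      rw [div_le_div_iff₀ hM0 (by norm_num)]
      linarith
    have h3 : (M.choose k : ℝ) * (2 / 3) ≤ (M.choose k : ℝ) * (1 - (k : ℝ) * r / M) :=
      mul_le_mul_of_nonneg_left (by linarith) (Nat.cast_nonneg _)
    linarith
  have hCR : (0 : ℝ) < (R.card.choose k : ℝ) := by exact_mod_cast Nat.choose_pos hkR
  have hCM : (0 : ℝ) < (M.choose k : ℝ) := by exact_mod_cast Nat.choose_pos (by omega)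
  have hq0 : 0 ≤ q := by
    have h1 : (0 : ℝ) ≤ KR5.pos k y P := Nat.cast_nonneg _
    by_contra hcon
    push Not at hcon
    have : 2 / 3 * q * (M.choose k : ℝ) < 0 := by
      apply mul_neg_of_neg_of_pos _ hCM
      linarith
    linarith
  have hposR : (KR5.pos k y R : ℝ) ≤ q * (R.card.choose k : ℝ) := by
    have h1 : (KR5.pos k y R : ℝ) ≤ KR5.pos k y P := by exact_mod_cast pos_mono k y hRP
    have h2 : q * (2 / 3 * (M.choose k : ℝ)) ≤ q * (R.card.choose k : ℝ) :=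
      mul_le_mul_of_nonneg_left hav hq0
    linarith
  obtain ⟨μ, hμ⟩ : ∃ μ, μ = (∑ x ∈ R, y x) / R.card := ⟨_, rfl⟩
  have hprob : ∀ F : ℝ → ℝ, (∀ s, F s ≤ if 0 < s + k * μ then 1 else 0) →
      sv (fun x => y x - μ) k R F ≤ q := by
    intro F hF
    refine (sv_mono _ _ _ _ _ hF).trans ?_
    have h1 := sv_eq (fun x => y x - μ) k R (fun s => if 0 < s + k * μ then 1 else 0) hkR
    have h2 : ∑ V ∈ powersetCard k R, (if 0 < ∑ x ∈ V, (y x - μ) + k * μ then (1 : ℝ) else 0)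
        = KR5.pos k y R := by
      unfold KR5.pos
      rw [card_filter]
      push_cast
      apply sum_congr rfl
      intro V hV
      rw [mem_powersetCard] at hV
      rw [sum_sub_distrib, sum_const, nsmul_eq_mul, hV.2, sub_add_cancel]
    rw [h2] at h1
    rw [← h1] at hposR
    exact le_of_mul_le_mul_right hposR hCR
  obtain ⟨x0, hx0, hmin⟩ := exists_min_image R y (card_pos.1 hRpos)
  obtain ⟨β, hβ⟩ : ∃ β, β = -y x0 := ⟨_, rfl⟩
  have hβR : ∀ x ∈ R, -β ≤ y x := by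
    intro x hx
    rw [hβ, neg_neg]
    exact hmin x hx
  have hβP : ∀ z ∈ P \ R, y z ≤ -β := by
    intro z hz
    rw [hβ, neg_neg]
    exact hR x0 hx0 z hz
  rcases lt_or_ge β 0 with hβ0 | hβ0
  · exfalso
    have h1 : KR5.pos k y R = R.card.choose k := by
      unfold KR5.pos
      rw [filter_true_of_mem, card_powersetCard]
      intro V hV
      rw [mem_powersetCard] at hV
      apply Finset.sum_pos
      · intro x hx
        have := hβR x (hV.1 hx)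
        linarith
      · rw [← card_pos]
        omega
    rw [h1] at hposR
    nlinarith
  · refine ⟨R, r, β, μ, hRP, by rw [hRc, hMd], by rw [← hMd]; exact hr1, by rw [← hMd]; exact hr2,
      hβ0, hμ, fun x hx => by linarith [hβP x hx], hβR, fun x hx => hy x (hRP hx), ?_, hprob⟩
    have h1 : ∑ x ∈ P \ R, y x ≤ -(r * β) := by
      calc ∑ x ∈ P \ R, y x ≤ ∑ x ∈ P \ R, (-β) := sum_le_sum hβP
        _ = -(r * β) := by
          rw [sum_const, card_sdiff_of_subset hRP, nsmul_eq_mul, ← hMd, ← hRc,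
            Nat.add_sub_cancel_left]
          ring
    have h2 := sum_sdiff (f := y) hRP
    linarith

end

end Pool.Agent.KR6
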