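import Pool.Agent.KR5.Low

/-!
# Tail bounds from four moments
-/

namespace Pool.Agent.KR6

open Finset AK

/-- Cantelli's inequality -/
theorem cant {E : (ℝ → ℝ) → ℝ} {V U : ℝ} (hE : Mean E V U) {t : ℝ} (ht : 0 < t) (hV : 0 ≤ V) :
    t ^ 2 ≤ E (fun s => ind t s) * (t ^ 2 + V) := by
  rcases hV.lt_or_eq with h | h
  · have hc : 0 < V / t ^ 2 := by positivity
    have h1 := hE.cantelli ht hc (by
      rw [div_mul_cancel₀]
      positivity)
    have e : 1 / (1 + V / t ^ 2) = t ^ 2 / (t ^ 2 + V) := by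
      field_simp
    rw [e, div_le_iff₀ (by positivity)] at h1
    exact h1
  · -- zero variance
    subst h
    by_contra hcon
    push Not at hcon
    rw [add_zero] at hcon
    have ht2 : 0 < t ^ 2 := by positivity
    have h1 : E (fun s => ind t s) < 1 := by
      by_contra h2
      push Not at h2
      nlinarith
    obtain ⟨c, hc0, hc1⟩ : ∃ c : ℝ, 0 < c ∧ E (fun s => ind t s) < 1 / (1 + c) := by
      set p := E (fun s => ind t s) with hp
      rcases le_or_gt p 0 with hp0 | hp0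
      · exact ⟨1, one_pos, by linarith⟩
      · refine ⟨(1 - p) / 2, by linarith, ?_⟩
        rw [lt_div_iff₀ (by linarith)]
        nlinarith
    have h3 := hE.cantelli ht hc0 (by positivity)
    linarith

/-- the case `t ≥ B / 5` -/
theorem low5 {E : (ℝ → ℝ) → ℝ} {V U : ℝ} (hE : Mean E V U) {t B : ℝ} (ht : 0 < t)
    (hB : B ≤ 5 * t) (hB0 : 0 ≤ B) (hU : U ≤ 3 * V ^ 2 + B ^ 2 * V) :
    1 / 12 ≤ E (fun s => ind t s) := by
  rcases le_or_gt V (11 * t ^ 2) with h | h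
  · have := hE.cantelli ht (by norm_num : (0 : ℝ) < 11) h
    linarith
  · have h0 : 0 < V := lt_trans (by positivity) h
    have h1 : B ^ 2 ≤ (5 * t) ^ 2 := pow_le_pow_left₀ hB0 hB 2
    have h2 : B ^ 2 ≤ 25 / 11 * V := by nlinarith
    have h3 : B ^ 2 * V ≤ 25 / 11 * V * V := mul_le_mul_of_nonneg_right h2 h0.le
    have := hE.quartic (κ := 25 / 11) ht (by norm_num) h0 (by nlinarith)
    linarith

/-- the case `t ≥ B / 50` -/
theorem low50 {E : (ℝ → ℝ) → ℝ} {V U : ℝ} (hE : Mean E V U) {t B : ℝ} (ht : 0 < t)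
    (hB : B ≤ 50 * t) (hB0 : 0 ≤ B) (hU : U ≤ 3 * V ^ 2 + B ^ 2 * V) :
    1 / 100 ≤ E (fun s => ind t s) := by
  rcases le_or_gt V (99 * t ^ 2) with h | h
  · have := hE.cantelli ht (by norm_num : (0 : ℝ) < 99) h
    linarith
  · have h0 : 0 < V := lt_trans (by positivity) h
    have h1 : B ^ 2 ≤ (50 * t) ^ 2 := pow_le_pow_left₀ hB0 hB 2
    have h2 : B ^ 2 ≤ 2500 / 99 * V := by nlinarith
    have h3 : B ^ 2 * V ≤ 2500 / 99 * V * V := mul_le_mul_of_nonneg_right h2 h0.le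
    have := hE.quartic (κ := 2500 / 99) ht (by norm_num) h0 (by nlinarith)
    linarith

/-- the probability to exceed a level `m ≥ 0` -/
theorem shift {E : (ℝ → ℝ) → ℝ} {V U : ℝ} (hE : Mean E V U) {m B G : ℝ} (hm : 0 ≤ m)
    (hV : 0 ≤ V) (hG : 0 < G) (hGV : G ^ 2 = 3 * V + B ^ 2) (hU : U ≤ 3 * V ^ 2 + B ^ 2 * V) :
    9 / 20 * V ≤ E (fun s => if m < s then 1 else 0) * G ^ 2 + 49 / 100 * (m * G)
      + 9 / 10 * m ^ 2 := by
  obtain ⟨w, hw0, hw2⟩ : ∃ w : ℝ, 0 < w ∧ w ^ 2 = 3 / 2 :=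
    ⟨Real.sqrt (3 / 2), Real.sqrt_pos.2 (by norm_num), Real.sq_sqrt (by norm_num)⟩
  have hw1 : w ≤ 49 / 40 := by nlinarith
  -- `θ = G / w`
  obtain ⟨x, hx⟩ : ∃ x, x = w / G := ⟨_, rfl⟩
  have hx0 : 0 < x := by rw [hx]; positivity
  have hxG : x * G = w := by rw [hx]; field_simp
  have h1 : E (fun s => (2 * (s * x) + 3 * (s * x) ^ 2 - (s * x) ^ 4) / 5
      - (2 * (m * x) + 3 * (m * x) ^ 2) / 5) ≤ E (fun s => if m < s then 1 else 0) := by
    apply hE.mono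
    intro s
    obtain ⟨v, hv⟩ : ∃ v, v = s * x := ⟨_, rfl⟩
    obtain ⟨δ, hδ⟩ : ∃ δ, δ = m * x := ⟨_, rfl⟩
    have hδ0 : 0 ≤ δ := by rw [hδ]; positivity
    rw [← hv, ← hδ]
    split_ifs with h
    · nlinarith [sq_nonneg (v ^ 2 - 2), sq_nonneg (v - 1), sq_nonneg δ]
    · push Not at h
      have hv6 : v ≤ δ := by
        rw [hv, hδ]
        exact mul_le_mul_of_nonneg_right h hx0.le
      rcases le_or_gt v 0 with h0 | h0
      · have e : 2 * v + 3 * v ^ 2 - v ^ 4 = -((-v) * ((v + 1) ^ 2 * (2 - v))) := by ring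
        have h1 : 0 ≤ (-v) * ((v + 1) ^ 2 * (2 - v)) := by
          apply mul_nonneg (by linarith)
          apply mul_nonneg (sq_nonneg _)
          linarith
        rw [e]
        nlinarith
      · have h2 : v ^ 2 ≤ δ ^ 2 := pow_le_pow_left₀ h0.le hv6 2
        have h3 : 0 ≤ v ^ 4 := by positivity
        linarith
  have e : (fun s : ℝ => (2 * (s * x) + 3 * (s * x) ^ 2 - (s * x) ^ 4) / 5
      - (2 * (m * x) + 3 * (m * x) ^ 2) / 5)
      = (fun s => -((2 * (m * x) + 3 * (m * x) ^ 2) / 5) + ((2 * x / 5) * s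
        + ((3 * x ^ 2 / 5) * s ^ 2 + (-(x ^ 4 / 5)) * s ^ 4))) := by
    funext s
    ring
  rw [e, hE.poly] at h1
  obtain ⟨p, hp⟩ : ∃ p, p = E (fun s => if m < s then 1 else 0) := ⟨_, rfl⟩
  rw [← hp] at h1 ⊢
  have hU2 : U ≤ V * G ^ 2 := by rw [hGV]; nlinarith
  have h2 : x ^ 4 / 5 * U ≤ x ^ 4 / 5 * (V * G ^ 2) :=
    mul_le_mul_of_nonneg_left hU2 (by positivity)
  -- multiply by `G ^ 2`
  have h3 : (-((2 * (m * x) + 3 * (m * x) ^ 2) / 5) + (3 * x ^ 2 / 5 * V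
      + -(x ^ 4 / 5) * (V * G ^ 2))) * G ^ 2 ≤ p * G ^ 2 :=
    mul_le_mul_of_nonneg_right (by linarith) (by positivity)
  have e2 : (-((2 * (m * x) + 3 * (m * x) ^ 2) / 5) + (3 * x ^ 2 / 5 * V
      + -(x ^ 4 / 5) * (V * G ^ 2))) * G ^ 2
      = -(2 / 5 * (m * G) * (x * G)) - 3 / 5 * m ^ 2 * (x * G) ^ 2 + 3 / 5 * V * (x * G) ^ 2
        - 1 / 5 * V * ((x * G) ^ 2) ^ 2 := by ring
  rw [e2, hxG, hw2] at h3
  have h4 : m * G * w ≤ m * G * (49 / 40) := mul_le_mul_of_nonneg_left hw1 (by positivity)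
  nlinarith

/-- linearised form -/
theorem shift' {E : (ℝ → ℝ) → ℝ} {V U : ℝ} (hE : Mean E V U) {m B g q : ℝ} (hm : 0 ≤ m)
    (hV : 0 ≤ V) (hB : 0 < B) (hU : U ≤ 3 * V ^ 2 + B ^ 2 * V) (hg : 0 < g)
    (hq : E (fun s => if m < s then 1 else 0) ≤ q) :
    9 / 20 * V ≤ (q + 49 / 200 * m / g) * (3 * V + B ^ 2) + 49 / 200 * m * g
      + 9 / 10 * m ^ 2 := by
  obtain ⟨G, hG0, hG2⟩ : ∃ G : ℝ, 0 < G ∧ G ^ 2 = 3 * V + B ^ 2 := by
    have hpos : 0 < 3 * V + B ^ 2 := by positivity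
    exact ⟨Real.sqrt (3 * V + B ^ 2), Real.sqrt_pos.2 hpos, Real.sq_sqrt hpos.le⟩
  have h1 := shift hE hm hV hG0 hG2 hU
  have h2 : E (fun s => if m < s then 1 else 0) * G ^ 2 ≤ q * G ^ 2 :=
    mul_le_mul_of_nonneg_right hq (by positivity)
  have h3 : 2 * G ≤ G ^ 2 / g + g := by
    have h4 : 0 ≤ (G - g) ^ 2 / g := by positivity
    have h5 : (G - g) ^ 2 / g = G ^ 2 / g - 2 * G + g := by
      field_simp
      ring
    linarith
  have h4 : m * (2 * G) ≤ m * (G ^ 2 / g + g) := mul_le_mul_of_nonneg_left h3 hm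
  have h5 : m * (G ^ 2 / g + g) = m / g * G ^ 2 + m * g := by
    field_simp
  rw [← hG2]
  have h6 : (q + 49 / 200 * m / g) * G ^ 2 = q * G ^ 2 + 49 / 200 * (m / g * G ^ 2) := by
    field_simp
  rw [h6]
  linarith

end Pool.Agent.KR6
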